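import Pool.Agent.Lib.H29F.FA4
import Pool.Agent.Lib.H29F.FA3

/-!
# AQ0: the abstract part with letter groups: definitions, the letter of an element of `U_(w s)`

`D : QDat G J`: subgroups `X_i` of `G` (the letter groups), elements `n_i`, subgroups `U_w` for the words `w` (lists, read from the right): `U_(w s_i) = (n_i⁻¹ U_w n_i) ⋊ X_i`.
-/

namespace Pool.Agent.Lib.H29Q

open Pool.Agent.Lib.H29F

noncomputable section

set_option linter.unusedSectionVars false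
set_option linter.unusedVariables false

variable {G J : Type} [Group G]

variable (G J) in
/-- The group data. -/
structure QDat where
  /-- The representatives of the letters. -/
  n : J → G
  /-- The letter groups. -/
  X : J → Subgroup G
  /-- The groups `U_w`. -/
  UW : List J → Subgroup G
  /-- Reduced words. -/
  Rd : List J → Prop
  rd_tail : ∀ i l, Rd (i :: l) → Rd l
  uw_nil : UW [] = ⊥
  x_mem : ∀ i l, Rd (i :: l) → X i ≤ UW (i :: l)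
  up : ∀ i l, Rd (i :: l) → ∀ g ∈ UW l, (n i)⁻¹ * g * n i ∈ UW (i :: l)
  dec : ∀ i l, Rd (i :: l) → ∀ u ∈ UW (i :: l), ∃ x ∈ X i, n i * (u * x⁻¹) * (n i)⁻¹ ∈ UW l
  nrm : ∀ i l, Rd (i :: l) → ∀ x ∈ X i, ∀ g ∈ UW l, n i * (x * ((n i)⁻¹ * g * n i) * x⁻¹) * (n i)⁻¹ ∈ UW l
  disj : ∀ i l, Rd (i :: l) → ∀ x ∈ X i, n i * x * (n i)⁻¹ ∈ UW l → x = 1
  /-- The integral elements. -/
  GO : Subgroup G
  n_O : ∀ i, n i ∈ GO
  c_O : ∀ i l, Rd (i :: l) → ∀ x ∈ X i, ∀ u, n i * (u * x⁻¹) * (n i)⁻¹ ∈ UW l → u ∈ GO → x ∈ GO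
  div : ∀ i, ∀ x ∈ X i, ∃ m : ℕ, 0 < m ∧ x ^ m ∈ GO

namespace QDat

variable (D : QDat G J)

/-- `n_w`. -/
def nw : List J → G
  | [] => 1
  | i :: l => nw l * D.n i

@[simp] theorem nw_nil : D.nw [] = 1 := rfl

@[simp] theorem nw_cons (i : J) (l : List J) : D.nw (i :: l) = D.nw l * D.n i := rfl

variable {D} {i : J} {l : List J}

/-- The elements of `n_i⁻¹ U_w n_i` are stable under conjugation by `X_i`. -/
theorem nrm' (hl : D.Rd (i :: l)) {x y : G} (hx : x ∈ D.X i) (hy : D.n i * y * (D.n i)⁻¹ ∈ D.UW l) : D.n i * (x * y * x⁻¹) * (D.n i)⁻¹ ∈ D.UW l := by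
  have h := D.nrm i l hl x hx _ hy
  have e : (D.n i)⁻¹ * (D.n i * y * (D.n i)⁻¹) * D.n i = y := by group
  rwa [e] at h

/-- Uniqueness of the letter. -/
theorem uniq (hl : D.Rd (i :: l)) {u x y : G} (hx : x ∈ D.X i) (hy : y ∈ D.X i) (h1 : D.n i * (u * x⁻¹) * (D.n i)⁻¹ ∈ D.UW l) (h2 : D.n i * (u * y⁻¹) * (D.n i)⁻¹ ∈ D.UW l) : x = y := by
  have h3 := mul_mem (inv_mem h1) h2
  have e : (D.n i * (u * x⁻¹) * (D.n i)⁻¹)⁻¹ * (D.n i * (u * y⁻¹) * (D.n i)⁻¹) = D.n i * (x * y⁻¹) * (D.n i)⁻¹ := by group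
  rw [e] at h3
  exact mul_inv_eq_one.1 (D.disj i l hl _ (mul_mem hx (inv_mem hy)) h3)

variable (D)

open scoped Classical in
/-- The letter of `u`. -/
def c (i : J) (l : List J) (u : G) : G := if h : ∃ x ∈ D.X i, D.n i * (u * x⁻¹) * (D.n i)⁻¹ ∈ D.UW l then h.choose else 1

variable {D}

theorem c_spec (hl : D.Rd (i :: l)) {u : G} (hu : u ∈ D.UW (i :: l)) : D.c i l u ∈ D.X i ∧ D.n i * (u * (D.c i l u)⁻¹) * (D.n i)⁻¹ ∈ D.UW l := by
  have h := D.dec i l hl u hu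
  unfold c
  rw [dif_pos h]
  exact h.choose_spec

theorem c_eq (hl : D.Rd (i :: l)) {u x : G} (hu : u ∈ D.UW (i :: l)) (hx : x ∈ D.X i) (h : D.n i * (u * x⁻¹) * (D.n i)⁻¹ ∈ D.UW l) : D.c i l u = x :=
  uniq hl (c_spec hl hu).1 hx (c_spec hl hu).2 h

theorem c_mul (hl : D.Rd (i :: l)) {u v : G} (hu : u ∈ D.UW (i :: l)) (hv : v ∈ D.UW (i :: l)) : D.c i l (u * v) = D.c i l u * D.c i l v := by
  obtain ⟨h1, h2⟩ := c_spec hl hu
  obtain ⟨h3, h4⟩ := c_spec hl hv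
  refine c_eq hl (mul_mem hu hv) (mul_mem h1 h3) ?_
  have h5 := mul_mem h2 (nrm' hl h1 h4)
  have e : D.n i * (u * (D.c i l u)⁻¹) * (D.n i)⁻¹ * (D.n i * (D.c i l u * (v * (D.c i l v)⁻¹) * (D.c i l u)⁻¹) * (D.n i)⁻¹) =
      D.n i * (u * v * (D.c i l u * D.c i l v)⁻¹) * (D.n i)⁻¹ := by group
  rwa [e] at h5

theorem c_x (hl : D.Rd (i :: l)) {x : G} (hx : x ∈ D.X i) : D.c i l x = x := by
  refine c_eq hl (D.x_mem i l hl hx) hx ?_
  rw [mul_inv_cancel, mul_one, mul_inv_cancel]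
  exact one_mem _

theorem c_one (hl : D.Rd (i :: l)) : D.c i l 1 = 1 := c_x hl (one_mem _)

theorem c_inv (hl : D.Rd (i :: l)) {u : G} (hu : u ∈ D.UW (i :: l)) : D.c i l u⁻¹ = (D.c i l u)⁻¹ := by
  have h := c_mul hl hu (inv_mem hu)
  rw [mul_inv_cancel, c_one hl] at h
  exact (inv_eq_of_mul_eq_one_right h.symm).symm

/-- The kernel of the letter. -/
theorem c_ker (hl : D.Rd (i :: l)) {u : G} (hu : u ∈ D.UW (i :: l)) : D.c i l u = 1 ↔ D.n i * u * (D.n i)⁻¹ ∈ D.UW l := by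
  constructor
  · intro h
    have h1 := (c_spec hl hu).2
    rwa [h, inv_one, mul_one] at h1
  · intro h
    refine c_eq hl hu (one_mem _) ?_
    rwa [inv_one, mul_one]

/-- Going up. -/
theorem up_ker (hl : D.Rd (i :: l)) {g : G} (hg : g ∈ D.UW l) : (D.n i)⁻¹ * g * D.n i ∈ D.UW (i :: l) ∧ D.c i l ((D.n i)⁻¹ * g * D.n i) = 1 := by
  have h := D.up i l hl g hg
  refine ⟨h, (c_ker hl h).2 ?_⟩
  have e : D.n i * ((D.n i)⁻¹ * g * D.n i) * (D.n i)⁻¹ = g := by group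
  rwa [e]

variable (D) in
/-- The letter as a homomorphism. -/
def ch (hl : D.Rd (i :: l)) : D.UW (i :: l) →* G where
  toFun u := D.c i l u.1
  map_one' := c_one hl
  map_mul' u v := c_mul hl u.2 v.2

variable (D) in
/-- The letters of the elements of `B ∩ U_w`. -/
def im (hl : D.Rd (i :: l)) (B : Subgroup G) : Subgroup G := (B.subgroupOf (D.UW (i :: l))).map (D.ch hl)

variable (D) in
/-- The elements of `B ∩ U_w` with trivial letter. -/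
def kr (hl : D.Rd (i :: l)) (B : Subgroup G) : Subgroup G := ((B.subgroupOf (D.UW (i :: l))) ⊓ (D.ch hl).ker).map (D.UW (i :: l)).subtype

theorem mem_im (hl : D.Rd (i :: l)) {B : Subgroup G} {r : G} : r ∈ D.im hl B ↔ ∃ u ∈ D.UW (i :: l), u ∈ B ∧ D.c i l u = r := by
  unfold im
  rw [Subgroup.mem_map]
  constructor
  · rintro ⟨u, hu, h⟩
    exact ⟨u.1, u.2, hu, h⟩
  · rintro ⟨u, hu, hB, h⟩
    exact ⟨⟨u, hu⟩, hB, h⟩

theorem mem_kr (hl : D.Rd (i :: l)) {B : Subgroup G} {u : G} : u ∈ D.kr hl B ↔ u ∈ D.UW (i :: l) ∧ u ∈ B ∧ D.c i l u = 1 := by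
  unfold kr
  rw [Subgroup.mem_map]
  constructor
  · rintro ⟨u, ⟨h1, h2⟩, rfl⟩
    exact ⟨u.2, h1, MonoidHom.mem_ker.1 h2⟩
  · rintro ⟨hu, h1, h2⟩
    exact ⟨⟨u, hu⟩, ⟨h1, MonoidHom.mem_ker.2 h2⟩, rfl⟩

theorem im_le (hl : D.Rd (i :: l)) (B : Subgroup G) : D.im hl B ≤ D.X i := by
  intro r hr
  obtain ⟨u, hu, _, rfl⟩ := (mem_im hl).1 hr
  exact (c_spec hl hu).1

/-- The letters of the integral elements. -/
theorem im_O (hl : D.Rd (i :: l)) : D.im hl D.GO = D.X i ⊓ D.GO := by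
  ext r
  rw [mem_im, Subgroup.mem_inf]
  constructor
  · rintro ⟨u, hu, hO, rfl⟩
    obtain ⟨h1, h2⟩ := c_spec hl hu
    exact ⟨h1, D.c_O i l hl _ h1 u h2 hO⟩
  · rintro ⟨h1, h2⟩
    exact ⟨r, D.x_mem i l hl h1, h2, c_x hl h1⟩

end QDat

end

end Pool.Agent.Lib.H29Q
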