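import Pool.Agent.Lib.H29Q.AQ0

/-!
# AQ1: the generalised index along the fibration; reduction
-/

namespace Pool.Agent.Lib.H29Q

open Pool.Agent.Lib.H29F

noncomputable section

set_option linter.unusedSectionVars false
set_option linter.unusedVariables false

section general

variable {G G' : Type} [Group G] [Group G']

/-- **The fibration of the generalised index.** -/
theorem gi_fibQ (φ : G →* G') {A B : Subgroup G} (h1 : A.relIndex B ≠ 0) (h2 : B.relIndex A ≠ 0) :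
    gi A B = gi (A.map φ) (B.map φ) * gi (A ⊓ φ.ker) (B ⊓ φ.ker) := by
  have hCA : (A ⊓ B).relIndex A ≠ 0 := by rw [Subgroup.inf_relIndex_left]; exact h2
  have hCB : (A ⊓ B).relIndex B ≠ 0 := by rw [Subgroup.inf_relIndex_right]; exact h1
  have eA := fib_le φ (inf_le_left : A ⊓ B ≤ A)
  have eB := fib_le φ (inf_le_right : A ⊓ B ≤ B)
  have nA : ((A ⊓ B).map φ).relIndex (A.map φ) * ((A ⊓ B) ⊓ φ.ker).relIndex (A ⊓ φ.ker) ≠ 0 := by rw [← eA]; exact hCA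
  have nB : ((A ⊓ B).map φ).relIndex (B.map φ) * ((A ⊓ B) ⊓ φ.ker).relIndex (B ⊓ φ.ker) ≠ 0 := by rw [← eB]; exact hCB
  rw [gi_of_le inf_le_left inf_le_right hCA hCB,
    gi_of_le (Subgroup.map_mono (inf_le_left : A ⊓ B ≤ A)) (Subgroup.map_mono (inf_le_right : A ⊓ B ≤ B))
      (left_ne_zero_of_mul nA) (left_ne_zero_of_mul nB),
    gi_of_le (inf_le_inf_right φ.ker (inf_le_left : A ⊓ B ≤ A)) (inf_le_inf_right φ.ker (inf_le_right : A ⊓ B ≤ B))
      (right_ne_zero_of_mul nA) (right_ne_zero_of_mul nB), eA, eB]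
  push_cast
  rw [mul_div_mul_comm]

theorem sub_relQ (U A B : Subgroup G) (h : (U ⊓ A).relIndex (U ⊓ B) ≠ 0) : (A.subgroupOf U).relIndex (B.subgroupOf U) ≠ 0 := by
  rw [← Subgroup.relIndex_map_map_of_injective (f := U.subtype) _ _ U.subtype_injective, Subgroup.subgroupOf_map_subtype,
    Subgroup.subgroupOf_map_subtype, _root_.inf_comm A U, _root_.inf_comm B U]
  exact h

/-- Representatives. -/
theorem repsQ (A : Subgroup G) (S : Finset G) : ∃ R : Finset G, R ⊆ S ∧ (∀ r ∈ R, ∀ r' ∈ R, r ≠ r' → r⁻¹ * r' ∉ A) ∧ ∀ s ∈ S, ∃ r ∈ R, r⁻¹ * s ∈ A := by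
  classical
  induction S using Finset.induction_on with
  | empty => exact ⟨∅, subset_rfl, by simp, by simp⟩
  | insert s S _ ih =>
    obtain ⟨R, hR, h1, h2⟩ := ih
    by_cases hs : ∃ r ∈ R, r⁻¹ * s ∈ A
    · refine ⟨R, hR.trans (Finset.subset_insert _ _), h1, fun x hx => ?_⟩
      rcases Finset.mem_insert.1 hx with rfl | hx
      · exact hs
      · exact h2 x hx
    · push Not at hs
      refine ⟨insert s R, Finset.insert_subset_insert _ hR, fun r hr r' hr' hne => ?_, fun x hx => ?_⟩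
      · rcases Finset.mem_insert.1 hr with e1 | q1
        · rcases Finset.mem_insert.1 hr' with e2 | q2
          · exact absurd (e1.trans e2.symm) hne
          · intro hc
            refine hs r' q2 ?_
            have h3 := A.inv_mem hc
            rwa [_root_.mul_inv_rev, inv_inv, e1] at h3
        · rcases Finset.mem_insert.1 hr' with e2 | q2
          · rw [e2]
            exact hs r q1
          · exact h1 r q1 r' q2 hne
      · rcases Finset.mem_insert.1 hx with rfl | hx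
        · exact ⟨x, Finset.mem_insert_self _ _, by rw [inv_mul_cancel]; exact A.one_mem⟩
        · obtain ⟨r, hr, h⟩ := h2 x hx
          exact ⟨r, Finset.mem_insert_of_mem hr, h⟩

end general

namespace QDat

variable {G J : Type} [Group G] {D : QDat G J} {i : J} {l : List J}

theorem im_rel (hl : D.Rd (i :: l)) {A B : Subgroup G} (h : A.relIndex B ≠ 0) : (D.im hl A).relIndex (D.im hl B) ≠ 0 := by
  have h1 : (D.UW (i :: l) ⊓ A).relIndex (D.UW (i :: l) ⊓ B) ≠ 0 := by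
    refine Subgroup.relIndex_inf_ne_zero ?_ ?_
    · rw [Subgroup.relIndex_eq_one.2 inf_le_left]
      exact one_ne_zero
    · exact fun h2 => h (Subgroup.relIndex_eq_zero_of_le_right inf_le_right h2)
  have h2 := sub_relQ _ _ _ h1
  show ((A.subgroupOf (D.UW (i :: l))).map (D.ch hl)).relIndex ((B.subgroupOf (D.UW (i :: l))).map (D.ch hl)) ≠ 0
  rw [← Subgroup.relIndex_comap]
  exact fun h4 => h2 (Subgroup.relIndex_eq_zero_of_le_left (Subgroup.le_comap_map _ _) h4)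

/-- **The fibration.** -/
theorem gi_im (hl : D.Rd (i :: l)) {A B : Subgroup G} (h : Subgroup.Commensurable (D.UW (i :: l) ⊓ A) (D.UW (i :: l) ⊓ B)) :
    gi (D.UW (i :: l) ⊓ A) (D.UW (i :: l) ⊓ B) = gi (D.im hl A) (D.im hl B) * gi (D.kr hl A) (D.kr hl B) := by
  have h1 := gi_fibQ (D.ch hl) (sub_relQ _ _ _ h.1) (sub_relQ _ _ _ h.2)
  have h2 := gi_map (D.UW (i :: l)).subtype (D.UW (i :: l)).subtype_injective (A.subgroupOf (D.UW (i :: l))) (B.subgroupOf (D.UW (i :: l)))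
  rw [Subgroup.subgroupOf_map_subtype, Subgroup.subgroupOf_map_subtype, _root_.inf_comm A, _root_.inf_comm B] at h2
  have h3 := gi_map (D.UW (i :: l)).subtype (D.UW (i :: l)).subtype_injective ((A.subgroupOf (D.UW (i :: l))) ⊓ (D.ch hl).ker)
    ((B.subgroupOf (D.UW (i :: l))) ⊓ (D.ch hl).ker)
  rw [h2, h1]
  unfold QDat.kr
  rw [h3]
  rfl

theorem cz_kr (hl : D.Rd (i :: l)) (B : Subgroup G) {x : G} (hx : x ∈ D.X i) : cz (D.kr hl B) x = D.kr hl (cz B x) := by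
  have hxU := D.x_mem i l hl hx
  ext g
  rw [mem_cz, mem_kr, mem_kr, mem_cz]
  constructor
  · rintro ⟨h1, h2, h3⟩
    have h4 := mul_mem (mul_mem hxU h1) (inv_mem hxU)
    have e : x * (x⁻¹ * g * x) * x⁻¹ = g := by group
    rw [c_ker hl h1] at h3
    have h5 := nrm' hl hx h3
    rw [e] at h4 h5
    exact ⟨h4, h2, (c_ker hl h4).2 h5⟩
  · rintro ⟨h1, h2, h3⟩
    have h4 := mul_mem (mul_mem (inv_mem hxU) h1) hxU
    rw [c_ker hl h1] at h3
    have h5 := nrm' hl (inv_mem hx) h3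
    rw [inv_inv] at h5
    exact ⟨h4, h2, (c_ker hl h4).2 h5⟩

theorem kr_inf (hl : D.Rd (i :: l)) (B : Subgroup G) : D.kr hl B = D.kr hl ⊤ ⊓ B := by
  ext g
  rw [Subgroup.mem_inf, mem_kr, mem_kr]
  constructor
  · rintro ⟨h1, h2, h3⟩
    exact ⟨⟨h1, Subgroup.mem_top _, h3⟩, h2⟩
  · rintro ⟨⟨h1, _, h3⟩, h2⟩
    exact ⟨h1, h2, h3⟩

theorem kr_comm (hl : D.Rd (i :: l)) {A B : Subgroup G} (h : Subgroup.Commensurable A B) : Subgroup.Commensurable (D.kr hl A) (D.kr hl B) := by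
  rw [kr_inf hl A, kr_inf hl B]
  exact H29F.inf_comm _ h

theorem kr_cz (hl : D.Rd (i :: l)) (B : Subgroup G) {r : G} (hr : r ∈ D.X i) : cz (D.kr hl B) (D.n i * r) = D.UW l ⊓ cz B (D.n i * r) := by
  have hrU := D.x_mem i l hl hr
  ext g
  rw [mem_cz, mem_kr, Subgroup.mem_inf, mem_cz]
  constructor
  · rintro ⟨h1, h2, h3⟩
    rw [c_ker hl h1] at h3
    have h5 := nrm' hl hr h3
    have e : D.n i * (r * ((D.n i * r)⁻¹ * g * (D.n i * r)) * r⁻¹) * (D.n i)⁻¹ = g := by group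
    rw [e] at h5
    exact ⟨h5, h2⟩
  · rintro ⟨h1, h2⟩
    have h := (up_ker hl h1)
    have h3 := mul_mem (mul_mem (inv_mem hrU) h.1) hrU
    have e : r⁻¹ * ((D.n i)⁻¹ * g * D.n i) * r = (D.n i * r)⁻¹ * g * (D.n i * r) := by group
    have h4 := nrm' hl (inv_mem hr) ((c_ker hl h.1).1 h.2)
    rw [inv_inv] at h4
    rw [e] at h3 h4
    exact ⟨h3, h2, (c_ker hl h3).2 h4⟩

variable {Γ : Subgroup G} (h1 : ∀ z, (cz Γ z).relIndex D.GO ≠ 0) (h2 : ∀ z, D.GO.relIndex (cz Γ z) ≠ 0)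

include h1 h2

/-- **Unimodularity.** -/
theorem kr_uni (hl : D.Rd (i :: l)) {x : G} (hx : x ∈ D.X i) : gi (D.kr hl D.GO) (cz (D.kr hl D.GO) x) = 1 := by
  have hc : ∀ s ∈ D.X i, Subgroup.Commensurable (D.kr hl D.GO) (cz (D.kr hl D.GO) s) := by
    intro s hs
    rw [cz_kr hl D.GO hs]
    have h := (cz_comm h1 h2 1 s).2
    rw [cz_one] at h
    exact kr_comm hl h
  have hadd : ∀ r ∈ D.X i, ∀ s ∈ D.X i, gi (D.kr hl D.GO) (cz (D.kr hl D.GO) (r * s)) = gi (D.kr hl D.GO) (cz (D.kr hl D.GO) r) * gi (D.kr hl D.GO) (cz (D.kr hl D.GO) s) := by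
    intro r hr s hs
    have e1 : cz (D.kr hl D.GO) (r * s) = cz (cz (D.kr hl D.GO) s) r := by rw [cz_cz]
    have e2 : gi (cz (D.kr hl D.GO) r) (cz (cz (D.kr hl D.GO) s) r) = gi (D.kr hl D.GO) (cz (D.kr hl D.GO) s) := gi_cz _ _ _
    rw [e1, ← e2]
    refine (gi_trans (hc r hr).1 (hc r hr).2 ?_ ?_).symm
    · rw [cz_relIndex]
      exact (hc s hs).1
    · rw [cz_relIndex]
      exact (hc s hs).2
  have hmul : ∀ m : ℕ, gi (D.kr hl D.GO) (cz (D.kr hl D.GO) (x ^ m)) = gi (D.kr hl D.GO) (cz (D.kr hl D.GO) x) ^ m := by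
    intro m
    induction m with
    | zero => rw [pow_zero, cz_one, gi_self, pow_zero]
    | succ m ih => rw [pow_succ, hadd _ (pow_mem hx m) _ hx, ih, pow_succ]
  obtain ⟨m, hm, hm2⟩ := D.div i x hx
  have hp : 0 < gi (D.kr hl D.GO) (cz (D.kr hl D.GO) x) := gi_pos (hc x hx).1 (hc x hx).2
  have h4 := hmul m
  rw [cz_kr hl D.GO (pow_mem hx m), cz_self hm2, gi_self] at h4
  exact (pow_eq_one_iff_of_nonneg hp.le hm.ne').1 h4.symm

/-- **The index along the fibration.** -/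
theorem gi_step (hl : D.Rd (i :: l)) (z : G) {r : G} (hr : r ∈ D.X i) :
    gi (D.UW (i :: l) ⊓ D.GO) (D.UW (i :: l) ⊓ cz Γ z) = gi (D.X i ⊓ D.GO) (D.im hl (cz Γ z)) * gi (D.UW l ⊓ D.GO) (D.UW l ⊓ cz Γ (D.n i * r * z)) := by
  have hcG : Subgroup.Commensurable D.GO (cz Γ z) := ⟨h2 z, h1 z⟩
  rw [gi_im hl (H29F.inf_comm _ hcG), im_O hl]
  congr 1
  have hLM : Subgroup.Commensurable (D.kr hl D.GO) (D.kr hl (cz Γ z)) := kr_comm hl hcG
  have hL : Subgroup.Commensurable (D.kr hl D.GO) (cz (D.kr hl D.GO) r) := by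
    rw [cz_kr hl D.GO hr]
    have h := (cz_comm h1 h2 1 r).2
    rw [cz_one] at h
    exact kr_comm hl h
  have h3 : gi (D.kr hl D.GO) (D.kr hl (cz Γ z)) = gi (D.kr hl D.GO) (cz (D.kr hl (cz Γ z)) r) := by
    have h4 := gi_trans hL.1 hL.2 (C := cz (D.kr hl (cz Γ z)) r)
      (by rw [cz_relIndex]; exact hLM.1) (by rw [cz_relIndex]; exact hLM.2)
    rw [kr_uni h1 h2 hl hr, one_mul, gi_cz] at h4
    exact h4
  rw [h3, ← gi_cz (D.kr hl D.GO) _ (D.n i), cz_cz, kr_cz hl _ hr, cz_cz]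
  have h5 : cz (D.kr hl D.GO) (D.n i) = D.UW l ⊓ D.GO := by
    have h6 := kr_cz hl D.GO (one_mem (D.X i))
    rw [mul_one, cz_self (D.n_O i)] at h6
    exact h6
  rw [h5]

omit h1 h2

/-- The letters of the elements of `z Γ z⁻¹` are commensurable with the integral letters. -/
theorem im_comm (h1 : ∀ z, (cz Γ z).relIndex D.GO ≠ 0) (h2 : ∀ z, D.GO.relIndex (cz Γ z) ≠ 0) (hl : D.Rd (i :: l)) (z : G) :
    (D.im hl (cz Γ z)).relIndex (D.X i ⊓ D.GO) ≠ 0 ∧ (D.X i ⊓ D.GO).relIndex (D.im hl (cz Γ z)) ≠ 0 := by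
  rw [← im_O hl]
  exact ⟨im_rel hl (h1 z), im_rel hl (h2 z)⟩

/-- **Periodicity.** -/
theorem per_ex (hl : D.Rd (i :: l)) {z s r : G} (hs : s ∈ D.im hl (cz Γ z)) (hr : r ∈ D.X i) :
    ∃ u ∈ D.UW l, ∃ γ ∈ Γ, D.n i * (r * s) * z = u * (D.n i * r * z) * γ := by
  obtain ⟨la, hl1, hl2, hl3⟩ := (mem_im hl).1 hs
  rw [mem_cz] at hl2
  obtain ⟨h3, h4⟩ := c_spec hl hl1
  rw [hl3] at h3 h4
  -- `la = y s`, `y = la s⁻¹` in the kernel
  have h5 := nrm' hl hr h4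
  refine ⟨D.n i * (r * (la * s⁻¹) * r⁻¹)⁻¹ * (D.n i)⁻¹, ?_, z⁻¹ * la * z, hl2, ?_⟩
  · have e : D.n i * (r * (la * s⁻¹) * r⁻¹)⁻¹ * (D.n i)⁻¹ = (D.n i * (r * (la * s⁻¹) * r⁻¹) * (D.n i)⁻¹)⁻¹ := by group
    rw [e]
    exact inv_mem h5
  · group

/-- **Reduction.** -/
theorem reduce (hl : D.Rd (i :: l)) {z u r : G} (hu : u ∈ D.UW (i :: l)) (hrX : r ∈ D.X i) (hr : r⁻¹ * D.c i l u ∈ D.im hl (cz Γ z)) :
    ∃ τ ∈ D.UW l, ∃ γ ∈ Γ, D.nw (i :: l) * u * z = D.nw l * τ * (D.n i * r * z) * γ ∧ (D.n i)⁻¹ * τ * (D.n i * r * z) = u * z * γ⁻¹ := by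
  obtain ⟨la, hla, hlΓ, hlc⟩ := (mem_im hl).1 hr
  have h1 : u * la⁻¹ ∈ D.UW (i :: l) := mul_mem hu (inv_mem hla)
  have hc1 : D.c i l (u * la⁻¹) = r := by
    rw [c_mul hl hu (inv_mem hla), c_inv hl hla, hlc]
    group
  have h3 := (c_spec hl h1).2
  rw [hc1] at h3
  refine ⟨D.n i * (u * la⁻¹ * r⁻¹) * (D.n i)⁻¹, h3, z⁻¹ * la * z, mem_cz.1 hlΓ, ?_, ?_⟩
  · rw [D.nw_cons]
    group
  · group

/-- **Inequivalent classes stay inequivalent.** -/
theorem reduce_ne {z u u' τ τ' γ γ' r : G} (hγ : γ ∈ Γ) (hγ' : γ' ∈ Γ) (h : (D.n i)⁻¹ * τ * (D.n i * r * z) = u * z * γ⁻¹)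
    (h' : (D.n i)⁻¹ * τ' * (D.n i * r * z) = u' * z * γ'⁻¹) (hne : u⁻¹ * u' ∉ cz Γ z) : τ⁻¹ * τ' ∉ cz Γ (D.n i * r * z) := by
  intro hc
  apply hne
  rw [mem_cz] at hc ⊢
  have e : (D.n i * r * z)⁻¹ * (τ⁻¹ * τ') * (D.n i * r * z) =
      ((D.n i)⁻¹ * τ * (D.n i * r * z))⁻¹ * ((D.n i)⁻¹ * τ' * (D.n i * r * z)) := by
    group
  rw [e, h, h'] at hc
  have h3 := mul_mem (mul_mem (inv_mem hγ) hc) hγ'
  have e2 : γ⁻¹ * ((u * z * γ⁻¹)⁻¹ * (u' * z * γ'⁻¹)) * γ' = z⁻¹ * (u⁻¹ * u') * z := by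
    group
  rwa [e2] at h3

end QDat

end

end Pool.Agent.Lib.H29Q
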