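import Pool.Agent.Lib.H29Q.AQ1

/-!
# AQ2: the induction on the word, with letter groups
-/

namespace Pool.Agent.Lib.H29Q

open Pool.Agent.Lib.H29F

noncomputable section

set_option linter.unusedSectionVars false
set_option linter.unusedVariables false

variable {G J J₀ E : Type} [Group G] [DecidableEq J₀] (D : QDat G J)

/-- **The rank one estimate for one letter** (abstract form): `F` is the function, `F'` the function after the letter. `A` is the group of the elements `z`, `U` a group which contains all `U_w`. -/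
def RkH (A U Γ : Subgroup G) (F F' : G → ℝ) (χ : J₀ → G → Prop) (o : Finset J₀) (Nn Z : ℝ) (i : J) : Prop :=
  ∀ z ∈ A, ∀ 𝔞 : Subgroup G, 𝔞 ≤ D.X i → 𝔞.relIndex (D.X i ⊓ D.GO) ≠ 0 → (D.X i ⊓ D.GO).relIndex 𝔞 ≠ 0 →
    (∀ s ∈ 𝔞, ∀ r ∈ D.X i, ∃ u ∈ U, ∃ γ ∈ Γ, D.n i * (r * s) * z = u * (D.n i * r * z) * γ) →
    ∀ R : Finset G, (∀ r ∈ R, r ∈ D.X i) → (∀ r ∈ R, ∀ r' ∈ R, r ≠ r' → r⁻¹ * r' ∉ 𝔞) →
    ∀ lev : Bool, (lev = true → ∀ r ∈ R, ∀ j ∈ o, χ j (D.n i * r * z)) →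
    ∑ r ∈ R, F (D.n i * r * z) ≤ Z * F' z * gi (D.X i ⊓ D.GO) 𝔞 / (if lev then Nn ^ o.card else 1)

/-- The exponents along the word. -/
def ewA (sx : J → E → E) (e : E) : List J → E
  | [] => e
  | i :: l => sx i (ewA sx e l)

/-- All letters along the word are admissible. -/
def OkW (Ok : J → E → Prop) (sx : J → E → E) (e : E) : List J → Prop
  | [] => True
  | i :: l => Ok i (ewA sx e l) ∧ OkW Ok sx e l

/-- The constant. -/
def cst (Zf : J → E → ℝ) (sx : J → E → E) (e : E) : List J → ℝ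
  | [] => 1
  | i :: l => Zf i (ewA sx e l) * cst Zf sx e l

theorem cst_one {Zf : J → E → ℝ} (hZ : ∀ i e, 1 ≤ Zf i e) (sx : J → E → E) (e : E) (l : List J) : 1 ≤ cst Zf sx e l := by
  induction l with
  | nil => exact le_rfl
  | cons i l ih => exact one_le_mul_of_one_le_of_one_le (hZ _ _) ih

variable {D}

theorem χ_nwQ {χ : J₀ → G → Prop} {o : J → Finset J₀} (hn : ∀ i j, j ∉ o i → ∀ g, χ j (D.n i * g) ↔ χ j g) {l : List J} {j : J₀} (hj : ∀ i ∈ l, j ∉ o i) (g : G) : χ j (D.nw l * g) ↔ χ j g := by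
  induction l generalizing g with
  | nil => rw [D.nw_nil, one_mul]
  | cons i l ih =>
    rw [D.nw_cons, mul_assoc, ih (fun k hk => hj k (List.mem_cons_of_mem _ hk)), hn i j (hj i List.mem_cons_self)]

/-- The letters' indices which occur in the word. -/
def occ (o : J → Finset J₀) (l : List J) : Finset J₀ := l.foldr (fun i s => o i ∪ s) ∅

theorem occ_nil (o : J → Finset J₀) : occ o [] = ∅ := rfl

theorem occ_cons (o : J → Finset J₀) (i : J) (l : List J) : occ o (i :: l) = o i ∪ occ o l := rfl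

theorem mem_occ {o : J → Finset J₀} {l : List J} {j : J₀} : j ∈ occ o l ↔ ∃ i ∈ l, j ∈ o i := by
  induction l with
  | nil => simp [occ_nil]
  | cons i l ih => simp [occ_cons, ih]

/-- **The finite part, abstract form with letter groups.** -/
theorem c4Q {A U Γ : Subgroup G} {F : E → G → ℝ} {χ : J₀ → G → Prop} {o : J → Finset J₀} {Nn : ℝ} (hN : 0 < Nn) {sx : J → E → E} {Ok : J → E → Prop} {Zf : J → E → ℝ} (hZ : ∀ i e, 1 ≤ Zf i e)
    (hRk : ∀ i e, Ok i e → RkH D A U Γ (F e) (F (sx i e)) χ (o i) Nn (Zf i e) i)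
    (h1 : ∀ z, (cz Γ z).relIndex D.GO ≠ 0) (h2 : ∀ z, D.GO.relIndex (cz Γ z) ≠ 0) (hF : ∀ e g, 0 < F e g) (hFr : ∀ e g, ∀ γ ∈ Γ, F e (g * γ) = F e g)
    (hχr : ∀ j g, ∀ γ ∈ Γ, χ j (g * γ) ↔ χ j g) (hχl : ∀ j, ∀ u ∈ U, ∀ g, χ j (u * g) ↔ χ j g) (hχn : ∀ i j, j ∉ o i → ∀ g, χ j (D.n i * g) ↔ χ j g)
    (hU : ∀ l, D.UW l ≤ U) (hAn : ∀ i, D.n i ∈ A) (hAX : ∀ i, D.X i ≤ A) (ho : ∀ i k, o i = o k ∨ Disjoint (o i) (o k))
    (l : List J) (hl : D.Rd l) (e : E) (hOk : OkW Ok sx e l) {S : Finset J₀} (hS : ∀ i, o i ⊆ S ∨ Disjoint (o i) S) (z : G) (hz : z ∈ A) (T : Finset G)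
    (hT : ∀ u ∈ T, u ∈ D.UW l) (hT2 : ∀ u ∈ T, ∀ u' ∈ T, u ≠ u' → u⁻¹ * u' ∉ cz Γ z) (hχ : ∀ u ∈ T, ∀ j ∈ S, χ j (D.nw l * u * z)) :
    ∑ u ∈ T, F e (D.nw l * u * z) ≤ cst Zf sx e l * F (ewA sx e l) z * gi (D.UW l ⊓ D.GO) (D.UW l ⊓ cz Γ z) / Nn ^ (S ∩ occ o l).card := by
  classical
  induction l generalizing z T with
  | nil =>
    have h3 : T ⊆ {1} := by
      intro u hu
      have h := hT u hu
      rw [D.uw_nil, Subgroup.mem_bot] at h
      rw [h]
      exact Finset.mem_singleton_self _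
    have h4 : ∑ u ∈ T, F e (D.nw [] * u * z) ≤ ∑ u ∈ ({1} : Finset G), F e (D.nw [] * u * z) :=
      Finset.sum_le_sum_of_subset_of_nonneg h3 fun u _ _ => (hF e _).le
    refine h4.trans (le_of_eq ?_)
    rw [Finset.sum_singleton, D.nw_nil, mul_one, one_mul, D.uw_nil, bot_inf_eq, bot_inf_eq, gi_self, occ_nil, Finset.inter_empty, Finset.card_empty, pow_zero, mul_one, div_one]
    show F e z = 1 * F e z
    rw [one_mul]
  | cons i l ih =>
    have hl' := D.rd_tail i l hl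
    obtain ⟨hA1, hA2⟩ : Ok i (ewA sx e l) ∧ OkW Ok sx e l := hOk
    obtain ⟨R, hRS, hR, hR2⟩ := repsQ (D.im hl (cz Γ z)) (T.image (D.c i l))
    have hRX : ∀ r ∈ R, r ∈ D.X i := by
      intro r hr
      obtain ⟨u, hu, rfl⟩ := Finset.mem_image.1 (hRS hr)
      exact (QDat.c_spec hl (hT u hu)).1
    have h3 : ∀ u ∈ T, ∃ (r τ γ : G), r ∈ R ∧ τ ∈ D.UW l ∧ γ ∈ Γ ∧
        D.nw (i :: l) * u * z = D.nw l * τ * (D.n i * r * z) * γ ∧ (D.n i)⁻¹ * τ * (D.n i * r * z) = u * z * γ⁻¹ := by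
      intro u hu
      obtain ⟨r, hr, h⟩ := hR2 (D.c i l u) (Finset.mem_image_of_mem _ hu)
      obtain ⟨τ, hτ, γ, hγ, e1, e2⟩ := QDat.reduce hl (hT u hu) (hRX r hr) h
      exact ⟨r, τ, γ, hr, hτ, hγ, e1, e2⟩
    choose! ρ τ γ hρ hτ hγ e1 e2 using h3
    have hcm := QDat.im_comm h1 h2 hl z
    have hg0p : 0 < gi (D.X i ⊓ D.GO) (D.im hl (cz Γ z)) := gi_pos hcm.2 hcm.1
    have hg1p : 0 ≤ gi (D.UW (i :: l) ⊓ D.GO) (D.UW (i :: l) ⊓ cz Γ z) := div_nonneg (Nat.cast_nonneg _) (Nat.cast_nonneg _)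
    have hg : ∀ r ∈ D.X i, gi (D.UW l ⊓ D.GO) (D.UW l ⊓ cz Γ (D.n i * r * z)) =
        gi (D.UW (i :: l) ⊓ D.GO) (D.UW (i :: l) ⊓ cz Γ z) / gi (D.X i ⊓ D.GO) (D.im hl (cz Γ z)) := by
      intro r hr
      rw [QDat.gi_step h1 h2 hl z hr, mul_div_cancel_left₀ _ hg0p.ne']
    generalize gi (D.UW (i :: l) ⊓ D.GO) (D.UW (i :: l) ⊓ cz Γ z) = g1 at hg hg1p ⊢
    have hρX : ∀ r ∈ T.image ρ, r ∈ D.X i := by
      intro r hr
      obtain ⟨u, hu, rfl⟩ := Finset.mem_image.1 hr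
      exact hRX _ (hρ u hu)
    have hR' : ∀ r ∈ T.image ρ, ∀ r' ∈ T.image ρ, r ≠ r' → r⁻¹ * r' ∉ D.im hl (cz Γ z) := by
      intro r hr r' hr' hn
      obtain ⟨u, hu, rfl⟩ := Finset.mem_image.1 hr
      obtain ⟨u', hu', rfl⟩ := Finset.mem_image.1 hr'
      exact hR _ (hρ u hu) _ (hρ u' hu') hn
    have hstep := hRk i _ hA1 z hz (D.im hl (cz Γ z)) (QDat.im_le hl _) hcm.1 hcm.2 (fun s hs r hr => by
      obtain ⟨u, hu, γ, hγ, he⟩ := QDat.per_ex hl hs hr
      exact ⟨u, hU l hu, γ, hγ, he⟩) (T.image ρ) hρX hR'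
    generalize gi (D.X i ⊓ D.GO) (D.im hl (cz Γ z)) = g0 at hg hg0p hstep
    have h4 : ∑ u ∈ T, F e (D.nw (i :: l) * u * z) =
        ∑ r ∈ T.image ρ, ∑ u ∈ T with ρ u = r, F e (D.nw l * τ u * (D.n i * r * z)) := by
      rw [← Finset.sum_fiberwise_of_maps_to (fun u hu => Finset.mem_image_of_mem ρ hu)]
      refine Finset.sum_congr rfl fun r _ => Finset.sum_congr rfl fun u hu => ?_
      rw [Finset.mem_filter] at hu
      rw [e1 u hu.1, hFr e _ _ (hγ u hu.1), hu.2]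
    have h5 : ∀ r ∈ T.image ρ, ∑ u ∈ T with ρ u = r, F e (D.nw l * τ u * (D.n i * r * z)) ≤
        (cst Zf sx e l * (g1 / g0) / Nn ^ (S ∩ occ o l).card) * F (ewA sx e l) (D.n i * r * z) := by
      intro r hr
      have hne : ∀ u ∈ T.filter (fun u => ρ u = r), ∀ u' ∈ T.filter (fun u => ρ u = r), u ≠ u' →
          (τ u)⁻¹ * τ u' ∉ cz Γ (D.n i * r * z) := by
        intro u hu u' hu' hn
        rw [Finset.mem_filter] at hu hu'
        have a1 := e2 u hu.1
        have a2 := e2 u' hu'.1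
        rw [hu.2] at a1
        rw [hu'.2] at a2
        exact QDat.reduce_ne (hγ u hu.1) (hγ u' hu'.1) a1 a2 (hT2 u hu.1 u' hu'.1 hn)
      have hinj : Set.InjOn τ (T.filter (fun u => ρ u = r)) := by
        intro u hu u' hu' h
        by_contra hn
        apply hne u hu u' hu' hn
        rw [h, inv_mul_cancel]
        exact one_mem _
      have b1 : ∀ t ∈ (T.filter (fun u => ρ u = r)).image τ, t ∈ D.UW l := by
        intro t ht
        obtain ⟨u, hu, rfl⟩ := Finset.mem_image.1 ht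
        exact hτ u (Finset.mem_filter.1 hu).1
      have b2 : ∀ t ∈ (T.filter (fun u => ρ u = r)).image τ, ∀ t' ∈ (T.filter (fun u => ρ u = r)).image τ, t ≠ t' →
          t⁻¹ * t' ∉ cz Γ (D.n i * r * z) := by
        intro t ht t' ht' hn
        obtain ⟨u, hu, rfl⟩ := Finset.mem_image.1 ht
        obtain ⟨u', hu', rfl⟩ := Finset.mem_image.1 ht'
        exact hne u hu u' hu' fun h => hn (by rw [h])
      have b3 : ∀ t ∈ (T.filter (fun u => ρ u = r)).image τ, ∀ j ∈ S, χ j (D.nw l * t * (D.n i * r * z)) := by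
        intro t ht j hj
        obtain ⟨u, hu, rfl⟩ := Finset.mem_image.1 ht
        rw [Finset.mem_filter] at hu
        have h := hχ u hu.1 j hj
        rw [e1 u hu.1, hχr _ _ _ (hγ u hu.1), hu.2] at h
        exact h
      have hzA : D.n i * r * z ∈ A := mul_mem (mul_mem (hAn i) (hAX i (hρX r hr))) hz
      have h6 := ih hl' hA2 (D.n i * r * z) hzA ((T.filter (fun u => ρ u = r)).image τ) b1 b2 b3
      rw [Finset.sum_image hinj] at h6
      refine h6.trans (le_of_eq ?_)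
      rw [hg r (hρX r hr)]
      ring
    have hcs : 0 < cst Zf sx e l := lt_of_lt_of_le one_pos (cst_one hZ sx e l)
    have hC : 0 ≤ cst Zf sx e l * (g1 / g0) / Nn ^ (S ∩ occ o l).card := by positivity
    rw [h4]
    refine (Finset.sum_le_sum h5).trans ?_
    rw [← Finset.mul_sum]
    have hcst : cst Zf sx e (i :: l) = Zf i (ewA sx e l) * cst Zf sx e l := rfl
    have hew : ewA sx e (i :: l) = sx i (ewA sx e l) := rfl
    rw [hcst, hew]
    by_cases hc : o i ⊆ S ∧ Disjoint (o i) (occ o l)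
    · have hm : ∀ r ∈ T.image ρ, ∀ j ∈ o i, χ j (D.n i * r * z) := by
        intro r hr j hj
        obtain ⟨u, hu, rfl⟩ := Finset.mem_image.1 hr
        have h := hχ u hu j (hc.1 hj)
        have hjl : ∀ k ∈ l, j ∉ o k := fun k hk hjk => Finset.disjoint_left.1 hc.2 hj (mem_occ.2 ⟨k, hk, hjk⟩)
        rw [e1 u hu, hχr _ _ _ (hγ u hu), mul_assoc, χ_nwQ hχn hjl, hχl j _ (hU l (hτ u hu))] at h
        exact h
      refine (mul_le_mul_of_nonneg_left (hstep true fun _ => hm) hC).trans (le_of_eq ?_)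
      have hcard : (S ∩ occ o (i :: l)).card = (S ∩ occ o l).card + (o i).card := by
        rw [occ_cons, Finset.inter_union_distrib_left, Finset.inter_eq_right.2 hc.1, Finset.card_union_of_disjoint, add_comm]
        exact Finset.disjoint_of_subset_right Finset.inter_subset_right hc.2
      rw [hcard, if_pos rfl, pow_add]
      field_simp
    · refine (mul_le_mul_of_nonneg_left (hstep false fun h => absurd h Bool.false_ne_true) hC).trans (le_of_eq ?_)
      have hcard : S ∩ occ o (i :: l) = S ∩ occ o l := by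
        ext j
        rw [Finset.mem_inter, Finset.mem_inter, occ_cons, Finset.mem_union]
        constructor
        · rintro ⟨h5, h6⟩
          refine ⟨h5, ?_⟩
          rcases h6 with h6 | h6
          · by_contra h7
            apply hc
            refine ⟨?_, ?_⟩
            · rcases hS i with h8 | h8
              · exact h8
              · exact absurd h5 (Finset.disjoint_left.1 h8 h6)
            · rw [Finset.disjoint_left]
              intro k hk hk2
              obtain ⟨m, hm, hkm⟩ := mem_occ.1 hk2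
              rcases ho i m with h8 | h8
              · exact h7 (mem_occ.2 ⟨m, hm, by rw [← h8]; exact h6⟩)
              · exact Finset.disjoint_left.1 h8 hk hkm
          · exact h6
        · rintro ⟨h5, h6⟩
          exact ⟨h5, Or.inr h6⟩
      rw [hcard, if_neg Bool.false_ne_true]
      field_simp

end

end Pool.Agent.Lib.H29Q
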