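import Pool.Agent.Lib.L8.QF.Defs
import Pool.Agent.Lib.H29F.FH2
import Pool.Agent.Lib.L1S.QB1

/-!
# H29Q (stage 3, the finite part for the quasi-split groups): definitions (helper29)

`HF Q` is the group of the elements of `G(L)` which are fixed by all `τ_s`; `Xq Q i = U_O ∩ HF Q` is the letter group of the orbit `O` of `i`, `n_O = nW b L (ow Q i)`.
`RankQ Q i e δ Z` is the rank one estimate for one letter, with the constant `Z N(𝔫) ^ δ`.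
-/

namespace Pool.Agent.Lib.H29Q

open MeasureTheory Matrix NumberField IsDedekindDomain Pool.Agent.Lib.H89N Pool.Agent.Lib.H33W Pool.Agent.Lib.H67G Pool.Agent.Lib.L1S Pool.Agent.Lib.L8.QF
open scoped ENNReal

noncomputable section

set_option linter.unusedSectionVars false
set_option linter.unusedVariables false

variable {ι M N : Type} [Fintype ι] [DecidableEq ι] [AddCommGroup M] [Module ℚ M] [AddCommGroup N] [Module ℚ N]
  {P : RootPairing ι ℚ M N} [P.IsCrystallographic] [P.IsReduced] [P.IsIrreducible] [P.IsRootSystem]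
  {b : P.Base} {K L : Type} [Field K] [NumberField K] [Field L] [NumberField L] [Algebra K L]

/-- The elements of `G(L)` which are fixed by all `τ_s` (with their inverses). -/
def HF (Q : QS b K L) : Subgroup (GK b L) where
  carrier := {g | Fx Q g.1.1 ∧ Fx Q g⁻¹.1.1}
  one_mem' := by
    have h : Fx Q (1 : Matrix (I b) (I b) L) := (Fx_iff Q _).2 fun s => map_one _
    refine ⟨h, ?_⟩
    rw [inv_one]
    exact h
  mul_mem' := by
    intro g h hg hh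
    have key : ∀ X Y : Matrix (I b) (I b) L, Fx Q X → Fx Q Y → Fx Q (X * Y) := fun X Y hX hY => (Fx_iff Q _).2 fun s => by
      rw [map_mul, (Fx_iff Q X).1 hX s, (Fx_iff Q Y).1 hY s]
    refine ⟨key _ _ hg.1 hh.1, ?_⟩
    rw [_root_.mul_inv_rev]
    exact key _ _ hh.2 hg.2
  inv_mem' := by
    intro g hg
    refine ⟨hg.2, ?_⟩
    rw [inv_inv]
    exact hg.1

/-- Only the element itself matters. -/
theorem mem_HF {Q : QS b K L} {g : GK b L} (h : Fx Q g.1.1) : g ∈ HF Q := by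
  refine ⟨h, (Fx_iff Q _).2 fun s => ?_⟩
  have h1 := (Fx_iff Q _).1 h s
  have h2 : g.1.1 * g⁻¹.1.1 = 1 := g.1.mul_inv
  have h3 : g⁻¹.1.1 * g.1.1 = 1 := g.1.inv_mul
  have h4 : qtau Q s g⁻¹.1.1 * qtau Q s g.1.1 = 1 := by rw [← map_mul, h3, map_one]
  rw [h1] at h4
  calc qtau Q s g⁻¹.1.1 = qtau Q s g⁻¹.1.1 * (g.1.1 * g⁻¹.1.1) := by rw [h2, Matrix.mul_one]
    _ = g⁻¹.1.1 := by rw [← Matrix.mul_assoc, h4, Matrix.one_mul]

theorem HQ_le_HF (Q : QS b K L) : HQ Q ≤ HF Q := fun _ hg => HQ_fx Q hg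

/-- The letter group of the orbit of `i`. -/
def Xq (Q : QS b K L) (i : b.support) : Subgroup (GK b L) := L8.FL.Uw b L (ow Q i) ⊓ HF Q

/-- The representative of the orbit of `i`. -/
def nq (Q : QS b K L) (i : b.support) : GK b L := L8.FL.nW b L (ow Q i)

/-- **The rank one estimate for one letter**: for `z ∈ HF Q`, a group `𝔞` of periods of `X = Xq Q i`, commensurable with `X ∩ G(𝓞)`, and a finite set `R ⊆ X` which is inequivalent modulo `𝔞`: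
`∑ f_e(n r z) ^ (1/f) ≤ Z N(𝔫) ^ δ f_(s e)(z) ^ (1/f) [X ∩ G(𝓞) : 𝔞]`, with the factor `N(𝔫) ^ (- |O|)` if the level condition holds for all `j ∈ O` at all `n r z`. -/
def RankQ (Q : QS b K L) (i : b.support) (e : b.support → ℝ) (δ Z : ℝ) : Prop :=
  ∀ 𝔫 : Ideal (𝓞 K), 𝔫 ≠ ⊥ → ∀ z : GK b L, z ∈ HF Q → ∀ 𝔞 : Subgroup (GK b L), 𝔞 ≤ Xq Q i →
    𝔞.relIndex (Xq Q i ⊓ L8.FL.G1 b ⊤) ≠ 0 → (Xq Q i ⊓ L8.FL.G1 b ⊤).relIndex 𝔞 ≠ 0 →
    (∀ s ∈ 𝔞, ∀ r ∈ Xq Q i, ∃ u ∈ HU b L, ∃ γ ∈ L8.FL.G1 b (up L 𝔫), nq Q i * (r * s) * z = u * (nq Q i * r * z) * γ) →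
    ∀ R : Finset (GK b L), (∀ r ∈ R, r ∈ Xq Q i) → (∀ r ∈ R, ∀ r' ∈ R, r ≠ r' → r⁻¹ * r' ∉ 𝔞) →
    ∀ lev : Bool, (lev = true → ∀ r ∈ R, ∀ j ∈ orb Q i, L8.FL.Chi b (up L 𝔫) j (nq Q i * r * z)) →
    ∑ r ∈ R, L8.FL.fe b e (nq Q i * r * z) ^ df K L ≤
      Z * (Ideal.absNorm 𝔫 : ℝ) ^ δ * L8.FL.fe b (L8.FL.eW b e (ow Q i)) z ^ df K L * H29F.gi (Xq Q i ⊓ L8.FL.G1 b ⊤) 𝔞 / (if lev then (Ideal.absNorm 𝔫 : ℝ) ^ (orb Q i).card else 1)

/-- The orbit of `i` is orthogonal. -/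
def Orth (Q : QS b K L) (i : b.support) : Prop := ¬∃ j ∈ orb Q i, j ≠ i ∧ b.cartanMatrix i j ≠ 0

end

end Pool.Agent.Lib.H29Q
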