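import Pool.Agent.Lib.H29Q.Defs
import Pool.Agent.Lib.H29F.FG4
import Pool.Agent.Lib.H29F.FG3

/-!
# GC0: one letter, absolute group (the lemmas of `H29F/FG*` in terms of `L8/FL/Defs`)
-/

namespace Pool.Agent.Lib.H29Q

open MeasureTheory Matrix NumberField IsDedekindDomain Pool.Agent.Lib.H89N Pool.Agent.Lib.H33W Pool.Agent.Lib.H67G Pool.Agent.Lib.L1S Pool.Agent.Lib.L8.QF Pool.Agent.Lib.L8.FL
open scoped ENNReal

noncomputable section

set_option linter.unusedSectionVars false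
set_option linter.unusedVariables false

variable {ι M N : Type} [Fintype ι] [DecidableEq ι] [AddCommGroup M] [Module ℚ M] [AddCommGroup N] [Module ℚ N]
  {P : RootPairing ι ℚ M N} [P.IsCrystallographic] [P.IsReduced] [P.IsIrreducible] [P.IsRootSystem]
  {b : P.Base} {L : Type} [Field L] [NumberField L]

/-- The coordinate of `u` at `α_i`. -/
def cc (i : b.support) (g : GK b L) : L := g.1.1 (Sum.inl i) (Sum.inr (ng P i))

theorem cc_mul' (i : b.support) {g h : GK b L} (hg : g ∈ HU b L) (hh : h ∈ HU b L) : cc i (g * h) = cc i g + cc i h := H29F.Gk.cc_mul b L i hg hh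

theorem cc_x' (i : b.support) (r : L) : cc i (b1x b L i r) = r := H29F.Gk.cc_x b L i r

theorem x_Uw' {i : b.support} {A : List b.support} (h : b.IsPos (wW b A i)) (r : L) : b1x b L i r ∈ Uw b L (i :: A) := by
  rw [← H29F.Uw_eq]
  exact H29F.Gk.x_Uw b L (by rw [H29F.wW_eq]; exact h) r

theorem Uw_down' {i : b.support} {A : List b.support} {g : GK b L} (hg : g ∈ Uw b L (i :: A)) (h0 : cc i g = 0) : b1m b L i 1 * g * (b1m b L i 1)⁻¹ ∈ Uw b L A := by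
  rw [← H29F.Uw_eq] at hg ⊢
  exact H29F.Gk.Uw_down b L hg h0

theorem Uw_up' {i : b.support} {A : List b.support} (h : b.IsPos (wW b A i)) {g : GK b L} (hg : g ∈ Uw b L A) :
    (b1m b L i 1)⁻¹ * g * b1m b L i 1 ∈ Uw b L (i :: A) ∧ cc i ((b1m b L i 1)⁻¹ * g * b1m b L i 1) = 0 := by
  rw [← H29F.Uw_eq] at hg ⊢
  exact H29F.Gk.Uw_up b L (by rw [H29F.wW_eq]; exact h) hg

theorem Uw_cc' {i : b.support} {A : List b.support} (h : b.IsPos (wW b A i)) {g : GK b L} (hg : g ∈ Uw b L A) : cc i g = 0 := by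
  rw [← H29F.Uw_eq] at hg
  exact H29F.Gk.Uw_cc b L (by rw [H29F.wW_eq]; exact h) hg

theorem Uw_HU {A : List b.support} {g : GK b L} (hg : g ∈ Uw b L A) : g ∈ HU b L := hg.1

theorem Uw_nil : Uw b L ([] : List b.support) = ⊥ := by
  rw [← H29F.Uw_eq]
  exact (H29F.Gk.gD b L).uw_nil

theorem HU_HV' : HU b L ⊓ HV b L = ⊥ := H29F.Gk.HU_HV b L

theorem isn_nW' (A : List b.support) : IsN b L (wW b A) (nW b L A) := by
  rw [← H29F.nW_eq, ← H29F.wW_eq]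
  exact H29F.Gk.isn_nW b L A

theorem x_G1' (β : ι) (r : 𝓞 L) : b1x b L β (r : L) ∈ G1 b (⊤ : Ideal (𝓞 L)) := H29F.Gk.x_G1 b L β r

theorem m_G1' (i : b.support) : b1m b L i 1 ∈ G1 b (⊤ : Ideal (𝓞 L)) := H29F.Gk.m_G1 b L i

theorem m_inv' (i : b.support) (s : Lˣ) : (b1m b L i s)⁻¹ = b1m b L i (-s) := H29F.Gk.m_inv b L i s

theorem cc_int (i : b.support) {g : GK b L} (hg : g ∈ G1 b (⊤ : Ideal (𝓞 L))) : ∃ r : 𝓞 L, cc i g = (r : L) := by
  obtain ⟨y, _, hy⟩ := H29F.Gk.G1_top_int b L hg (Sum.inl i) (Sum.inr (ng P i))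
  exact ⟨y, hy.symm⟩

/-- Membership in `G(𝓞)` through the entries. -/
theorem mem_G1_top' {g : GK b L} (h : ∀ r c, L1S.InI ⊤ (g.1.1 r c) ∧ L1S.InI ⊤ (g⁻¹.1.1 r c)) : g ∈ G1 b (⊤ : Ideal (𝓞 L)) := H29F.Gk.mem_G1_top b L h

theorem G1_top_int' {g : GK b L} (hg : g ∈ G1 b (⊤ : Ideal (𝓞 L))) (r c : I b) : L1S.InI ⊤ (g.1.1 r c) := H29F.Gk.G1_top_int b L hg r c

theorem G1_comm' {𝔫 : Ideal (𝓞 L)} (h𝔫 : 𝔫 ≠ ⊥) (z : GK b L) : (H29F.cz (G1 b 𝔫) z).relIndex (G1 b (⊤ : Ideal (𝓞 L))) ≠ 0 ∧ (G1 b (⊤ : Ideal (𝓞 L))).relIndex (H29F.cz (G1 b 𝔫) z) ≠ 0 :=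
  H29F.Gk.G1_comm b L h𝔫 z

/-- An element of `U` lies in all maximal parabolic groups `P_j`. -/
theorem HU_PJ {g : GK b L} (hg : g ∈ HU b L) (j : b.support) : g ∈ PJ b L j := (H29F.PJ_iff j g).2 ((H29F.Gk.HU_Uu hg).toPj j)

end

end Pool.Agent.Lib.H29Q
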