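import Pool.Agent.Lib.H29Q.GC0

/-!
# GC1 (S/M): concatenation of words
-/

namespace Pool.Agent.Lib.H29Q

open MeasureTheory Matrix NumberField IsDedekindDomain Pool.Agent.Lib.H89N Pool.Agent.Lib.H33W Pool.Agent.Lib.H67G Pool.Agent.Lib.L1S Pool.Agent.Lib.L8.QF Pool.Agent.Lib.L8.FL
open scoped ENNReal

noncomputable section

set_option linter.unusedSectionVars false
set_option linter.unusedVariables false

variable {ι M N : Type} [Fintype ι] [DecidableEq ι] [AddCommGroup M] [Module ℚ M] [AddCommGroup N] [Module ℚ N]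
  {P : RootPairing ι ℚ M N} [P.IsCrystallographic] [P.IsReduced] [P.IsIrreducible] [P.IsRootSystem]
  {b : P.Base} {L : Type} [Field L] [NumberField L]

/-- PROOF. Induction on `A`. -/
theorem nW_append (A B : List b.support) : nW b L (A ++ B) = nW b L B * nW b L A := by
  induction A with
  | nil =>
    show nW b L B = nW b L B * 1
    rw [mul_one]
  | cons i A ih =>
    show nW b L (A ++ B) * b1m b L i 1 = nW b L B * (nW b L A * b1m b L i 1)
    rw [ih, mul_assoc]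

/-- PROOF. Induction on `A`. -/
theorem wW_append (A B : List b.support) : wW b (A ++ B) = wW b B * wW b A := by
  induction A with
  | nil =>
    show wW b B = wW b B * 1
    rw [mul_one]
  | cons i A ih =>
    show wW b (A ++ B) * P.reflectionPerm i = wW b B * (wW b A * P.reflectionPerm i)
    rw [ih, mul_assoc]

/-- PROOF. Induction on `A`. -/
theorem redW_tail {A B : List b.support} (h : RedW b (A ++ B)) : RedW b B := by
  induction A with
  | nil => exact h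
  | cons i A ih => exact ih h.2

/-- PROOF. Induction on `A`, `m_G1'`. -/
theorem nW_G1 (A : List b.support) : nW b L A ∈ G1 b (⊤ : Ideal (𝓞 L)) := by
  induction A with
  | nil => exact one_mem _
  | cons i A ih => exact mul_mem ih (m_G1' i)

/-- **Going up a word.** PROOF. Induction on `A`: `A = i :: A'`: `n_(i :: A') = n_A' n_i`, `g' = n_A'⁻¹ g n_A' ∈ U_(A' ++ B)` by induction (`RedW` of the tail), `n_i⁻¹ g' n_i ∈ U_(i :: (A' ++ B))` (`Uw_up'`). -/
theorem Uw_up_list {A B : List b.support} (h : RedW b (A ++ B)) {g : GK b L} (hg : g ∈ Uw b L B) : (nW b L A)⁻¹ * g * nW b L A ∈ Uw b L (A ++ B) := by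
  induction A with
  | nil =>
    show (1 : GK b L)⁻¹ * g * 1 ∈ Uw b L B
    rw [inv_one, one_mul, mul_one]
    exact hg
  | cons i A ih =>
    have h1 : b.IsPos (wW b (A ++ B) i) := h.1
    have h2 := (Uw_up' h1 (ih h.2)).1
    have h3 : (nW b L (i :: A))⁻¹ * g * nW b L (i :: A) = (b1m b L i 1)⁻¹ * ((nW b L A)⁻¹ * g * nW b L A) * b1m b L i 1 := by
      show (nW b L A * b1m b L i 1)⁻¹ * g * (nW b L A * b1m b L i 1) = _
      group
    rw [h3]
    exact h2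

/-- **`U_A ⊆ U_(A B)`.** PROOF. Induction on `A`. `A = i :: A'`, `x ∈ U_(i :: A')`, `r = cc i x`. `y = x x_i(-r)` (`b1x b L i (-r)`) is in `U_(i :: A')` (`x_Uw'`, `h1.1`) and `cc i y = 0` (`cc_mul'`, `cc_x'`), so `x' = n_i y n_i⁻¹ ∈ U_A'` (`Uw_down'`),
`x' ∈ U_(A' ++ B)` by induction, `y = n_i⁻¹ x' n_i ∈ U_(i :: (A' ++ B))` (`Uw_up'`), and `x_i(r) ∈ U_(i :: (A' ++ B))` (`x_Uw'`). `x = y x_i(r)` (`b1x_inv` or `b1x_add`). -/
theorem Uw_le_list {A B : List b.support} (h : RedW b (A ++ B)) (h1 : RedW b A) : Uw b L A ≤ Uw b L (A ++ B) := by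
  induction A with
  | nil =>
    rw [Uw_nil]
    exact bot_le
  | cons i A ih =>
    intro x hx
    have hr : ∀ r : L, b1x b L i r ∈ Uw b L (i :: A) := fun r => x_Uw' h1.1 r
    have hy : x * b1x b L i (-(cc i x)) ∈ Uw b L (i :: A) := mul_mem hx (hr _)
    have h0 : cc i (x * b1x b L i (-(cc i x))) = 0 := by
      rw [cc_mul' i (Uw_HU hx) (Uw_HU (hr _)), cc_x', add_neg_cancel]
    have h2 := ih h.2 h1.2 (Uw_down' hy h0)
    have h3 : b.IsPos (wW b (A ++ B) i) := h.1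
    have h4 := (Uw_up' h3 h2).1
    have h5 : b1x b L i (cc i x) ∈ Uw b L (i :: (A ++ B)) := x_Uw' h3 _
    have h6 : (b1m b L i 1)⁻¹ * (b1m b L i 1 * (x * b1x b L i (-(cc i x))) * (b1m b L i 1)⁻¹) * b1m b L i 1 * b1x b L i (cc i x) = x := by
      rw [← b1x_inv]
      group
    rw [← h6]
    exact mul_mem h4 h5

/-- **Decomposition.** PROOF. Induction on `A`. `A = []`: `x = 1`. `A = i :: A'`: `r = cc i u`, `y = u x_i(-r) ∈ U_(i :: (A' ++ B))` (`x_Uw'`), `cc i y = 0`, `u' = n_i y n_i⁻¹ ∈ U_(A' ++ B)` (`Uw_down'`); by induction `x' ∈ U_A'` with `n_A' (u' x'⁻¹) n_A'⁻¹ ∈ U_B`.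
Put `x = (n_i⁻¹ x' n_i) x_i(r)`: in `U_(i :: A')` (`Uw_up'` for `A'`, `x_Uw'`), and `n_(i :: A') (u x⁻¹) n_(i :: A')⁻¹ = n_A' (u' x'⁻¹) n_A'⁻¹` (`group`). If `u` is integral then `r` is (`cc_int`), `x_i(± r)` is (`x_G1'`), `u'` is (`m_G1'`), so `x'` is by induction, and `x` is. -/
theorem Uw_dec_list {A B : List b.support} (h : RedW b (A ++ B)) (h1 : RedW b A) {u : GK b L} (hu : u ∈ Uw b L (A ++ B)) :
    ∃ x ∈ Uw b L A, nW b L A * (u * x⁻¹) * (nW b L A)⁻¹ ∈ Uw b L B ∧ (u ∈ G1 b (⊤ : Ideal (𝓞 L)) → x ∈ G1 b (⊤ : Ideal (𝓞 L))) := by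
  induction A generalizing u with
  | nil =>
    refine ⟨1, one_mem _, ?_, fun _ => one_mem _⟩
    show (1 : GK b L) * (u * 1⁻¹) * 1⁻¹ ∈ Uw b L B
    rw [inv_one, one_mul, mul_one, mul_one]
    exact hu
  | cons i A ih =>
    have h3 : b.IsPos (wW b (A ++ B) i) := h.1
    have hr : ∀ r : L, b1x b L i r ∈ Uw b L (i :: (A ++ B)) := fun r => x_Uw' h3 r
    have hy : u * b1x b L i (-(cc i u)) ∈ Uw b L (i :: (A ++ B)) := mul_mem hu (hr _)
    have h0 : cc i (u * b1x b L i (-(cc i u))) = 0 := by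
      rw [cc_mul' i (Uw_HU hu) (Uw_HU (hr _)), cc_x', add_neg_cancel]
    obtain ⟨x', hx', hx2, hx3⟩ := ih h.2 h1.2 (Uw_down' hy h0)
    refine ⟨(b1m b L i 1)⁻¹ * x' * b1m b L i 1 * b1x b L i (cc i u), ?_, ?_, ?_⟩
    · exact mul_mem (Uw_up' h1.1 hx').1 (x_Uw' h1.1 _)
    · have h6 : nW b L (i :: A) * (u * ((b1m b L i 1)⁻¹ * x' * b1m b L i 1 * b1x b L i (cc i u))⁻¹) * (nW b L (i :: A))⁻¹ =
          nW b L A * (b1m b L i 1 * (u * b1x b L i (-(cc i u))) * (b1m b L i 1)⁻¹ * x'⁻¹) * (nW b L A)⁻¹ := by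
        show (nW b L A * b1m b L i 1) * (u * ((b1m b L i 1)⁻¹ * x' * b1m b L i 1 * b1x b L i (cc i u))⁻¹) * (nW b L A * b1m b L i 1)⁻¹ = _
        rw [← b1x_inv]
        group
      rw [h6]
      exact hx2
    · intro hint
      obtain ⟨s, hs⟩ := cc_int i hint
      have h7 : b1x b L i (cc i u) ∈ G1 b (⊤ : Ideal (𝓞 L)) := by
        rw [hs]
        exact x_G1' (i : ι) s
      have h8 : b1x b L i (-(cc i u)) ∈ G1 b (⊤ : Ideal (𝓞 L)) := by
        rw [← b1x_inv]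
        exact inv_mem h7
      have h9 := hx3 (mul_mem (mul_mem (m_G1' i) (mul_mem hint h8)) (inv_mem (m_G1' i)))
      exact mul_mem (mul_mem (mul_mem (inv_mem (m_G1' i)) h9) (m_G1' i)) h7

/-- **Uniqueness.** PROOF. `n_A x n_A⁻¹ ∈ V` by the definition of `U_A` (`hx.2`), and in `U`: it is `1` (`HU_HV'`). -/
theorem Uw_disj {A : List b.support} {x : GK b L} (hx : x ∈ Uw b L A) (h : nW b L A * x * (nW b L A)⁻¹ ∈ HU b L) : x = 1 := by
  have h1 : nW b L A * x * (nW b L A)⁻¹ ∈ HV b L := hx.2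
  have h2 : nW b L A * x * (nW b L A)⁻¹ ∈ HU b L ⊓ HV b L := ⟨h, h1⟩
  have h4 : HU b L ⊓ HV b L = ⊥ := HU_HV'
  rw [h4, Subgroup.mem_bot] at h2
  have h3 : x = (nW b L A)⁻¹ * (nW b L A * x * (nW b L A)⁻¹) * nW b L A := by group
  rw [h3, h2]
  group

end

end Pool.Agent.Lib.H29Q
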