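import Pool.Agent.Lib.H29Q.GC0

/-!
# GC2 (M): the Levi block of a set `S` of simple roots
-/

namespace Pool.Agent.Lib.H29Q

open MeasureTheory Matrix NumberField IsDedekindDomain Pool.Agent.Lib.H89N Pool.Agent.Lib.H33W Pool.Agent.Lib.H67G Pool.Agent.Lib.L1S Pool.Agent.Lib.L8.QF Pool.Agent.Lib.L8.FL
open scoped ENNReal

noncomputable section

set_option linter.unusedSectionVars false
set_option linter.unusedVariables false

variable {ι M N : Type} [Fintype ι] [DecidableEq ι] [AddCommGroup M] [Module ℚ M] [AddCommGroup N] [Module ℚ N]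
  {P : RootPairing ι ℚ M N} [P.IsCrystallographic] [P.IsReduced] [P.IsIrreducible] [P.IsRootSystem]
  {b : P.Base} {L : Type} [Field L] [NumberField L]

/-- The basis vectors of the weights in `ℤ S`. -/
def In0 (S : Finset b.support) (r : I b) : Prop := ∀ k, k ∉ S → mc b k r = 0

/-- The parabolic group of `S`: the elements which (with their inverses) do not lower the coefficients outside `S`. -/
def PS (S : Finset b.support) : Subgroup (GK b L) where
  carrier := {g | ∀ k, k ∉ S → ∀ r c, mc b k r < mc b k c → g.1.1 r c = 0 ∧ g⁻¹.1.1 r c = 0}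
  one_mem' := by
    intro k _ r c h
    have hne : r ≠ c := by
      rintro rfl
      exact lt_irrefl _ h
    rw [inv_one]
    exact ⟨Matrix.one_apply_ne hne, Matrix.one_apply_ne hne⟩
  mul_mem' := by
    intro g g' hg hg' k hk r c h
    have key : ∀ X Y : Matrix (I b) (I b) L, (∀ r c, mc b k r < mc b k c → X r c = 0) → (∀ r c, mc b k r < mc b k c → Y r c = 0) → (X * Y) r c = 0 := by
      intro X Y hX hY
      rw [Matrix.mul_apply]
      refine Finset.sum_eq_zero fun l _ => ?_
      by_cases h1 : mc b k r < mc b k l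
      · rw [hX r l h1, zero_mul]
      · rw [hY l c (lt_of_le_of_lt (not_lt.1 h1) h), mul_zero]
    refine ⟨key _ _ (fun r c h => (hg k hk r c h).1) (fun r c h => (hg' k hk r c h).1), ?_⟩
    have e : (g * g')⁻¹.1.1 = g'⁻¹.1.1 * g⁻¹.1.1 := by
      rw [_root_.mul_inv_rev]
      rfl
    rw [e]
    exact key _ _ (fun r c h => (hg' k hk r c h).2) (fun r c h => (hg k hk r c h).2)
  inv_mem' := by
    intro g hg k hk r c h
    refine ⟨(hg k hk r c h).2, ?_⟩
    rw [inv_inv]
    exact (hg k hk r c h).1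

/-- The Levi block of `g` is trivial. -/
def BT (S : Finset b.support) (g : GK b L) : Prop := ∀ r c, In0 S r → In0 S c → g.1.1 r c = (1 : Matrix (I b) (I b) L) r c

theorem gc2_mc (k : b.support) (r : I b) : ((mc b k r : ℤ) : ℚ) = b.toWeightBasis.repr (wt b r) k := by
  rw [d5_mc]
  rcases r with j | β
  · simp [wq, L1S.wt]
  · rfl

theorem gc2_over {i k : b.support} (hk : k ≠ i) {r c : I b} (h : wt b r = P.reflection i (wt b c)) : mc b k r = mc b k c := by
  have h1 : ((mc b k r : ℤ) : ℚ) = ((mc b k c : ℤ) : ℚ) := by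
    rw [gc2_mc, gc2_mc, h, RootPairing.reflection_apply, map_sub, map_smul, Finsupp.sub_apply, Finsupp.smul_apply,
      b.toWeightBasis_repr_root, Finsupp.single_eq_of_ne hk, smul_zero, sub_zero]
  exact_mod_cast h1

theorem gc2_m (i k : b.support) (hk : k ≠ i) (s : Lˣ) {r c : I b} (h : mc b k r < mc b k c) : (b1m b L i s).1.1 r c = 0 := by
  by_contra hne
  have h1 := gc2_over hk (mG_over b i s r c hne)
  omega

theorem gc2_m_PS {S : Finset b.support} {i : b.support} (hi : i ∈ S) : b1m b L i 1 ∈ PS S := by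
  intro k hk r c h
  have hki : k ≠ i := by
    rintro rfl
    exact hk hi
  refine ⟨gc2_m i k hki 1 h, ?_⟩
  rw [m_inv']
  exact gc2_m i k hki (-1) h

theorem gc2_mul (g h : GK b L) (r c : I b) : (g * h).1.1 r c = ∑ l, g.1.1 r l * h.1.1 l c := by
  have e : (g * h).1.1 = g.1.1 * h.1.1 := rfl
  rw [e, Matrix.mul_apply]

theorem gc2_zero {S : Finset b.support} {g h : GK b L} (hg : g ∈ PS S) (hh : h ∈ PS S) {r c l : I b} (hr : In0 S r) (hc : In0 S c)
    (hl : ¬ In0 S l) : g.1.1 r l * h.1.1 l c = 0 := by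
  unfold In0 at hl
  push Not at hl
  obtain ⟨k, hk, hk0⟩ := hl
  rcases lt_or_gt_of_ne hk0 with h1 | h1
  · have h2 : h.1.1 l c = 0 := (hh k hk l c (by rw [hc k hk]; exact h1)).1
    rw [h2, mul_zero]
  · have h2 : g.1.1 r l = 0 := (hg k hk r l (by rw [hr k hk]; exact h1)).1
    rw [h2, zero_mul]

theorem gc2_one_left {S : Finset b.support} {r l : I b} (hr : In0 S r) (hl : ¬ In0 S l) : (1 : Matrix (I b) (I b) L) r l = 0 :=
  Matrix.one_apply_ne (fun he => hl (he ▸ hr))

/-- PROOF. `HU_PJ` for `g` and `g⁻¹` (`inv_mem`). -/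
theorem HU_PS (S : Finset b.support) : HU b L ≤ PS S := by
  intro g hg k _ r c h
  exact ⟨HU_PJ hg k r c h, HU_PJ (inv_mem hg) k r c h⟩

/-- PROOF. Induction on `A`; `m_i(1)` is over `s_i` (`b1_m`, `IsN.vr`: an entry `(r, c)` with `c = inr β` is nonzero only for `r = inr (s_i β)`, and an entry with `c = inl _` only for `r = inl _` (apply `IsN.vr` to the inverse, or see the definition of `IsN` in L1S/B0), and the reflection `s_i` changes only the
coefficient of `α_i` of a root, `i ∈ S`, `k ∉ S`: `mc b k (inr (s_i β)) = mc b k (inr β)`). ANOTHER WAY: `m_i(1)` is a product of `x_i(1)`, `x_(-i)(-1)`, `x_i(1)` (`mG`), whose entries `(r, c)` are nonzero only if `wt r - wt c` is a multiple of `α_i` (`dvp_wt`). -/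
theorem nW_PS {S : Finset b.support} {A : List b.support} (hA : ∀ a ∈ A, a ∈ S) : nW b L A ∈ PS S := by
  induction A with
  | nil => exact one_mem _
  | cons i A ih =>
    have e : nW b L (i :: A) = nW b L A * b1m b L i 1 := rfl
    rw [e]
    exact mul_mem (ih fun a ha => hA a (List.mem_cons_of_mem _ ha)) (gc2_m_PS (hA i List.mem_cons_self))

/-- The block is multiplicative. PROOF. In `∑_k g r k * h k c`, `r`, `c` in the block: if `g r k * h k c ≠ 0` then for `j ∉ S`: `mc b j k ≤ mc b j r = 0` and `0 = mc b j c ≤ mc b j k`, so `k` is in the block, and there `g r k = 1 r k`: the sum is `∑_k 1 r k * h k c = h r c`. -/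
theorem BT_mul_left {S : Finset b.support} {g h : GK b L} (hg : g ∈ PS S) (hh : h ∈ PS S) (h1 : BT S g) {r c : I b} (hr : In0 S r) (hc : In0 S c) : (g * h).1.1 r c = h.1.1 r c := by
  have e : h.1.1 r c = ∑ l, (1 : Matrix (I b) (I b) L) r l * h.1.1 l c := by
    rw [← Matrix.mul_apply, Matrix.one_mul]
  rw [gc2_mul, e]
  refine Finset.sum_congr rfl fun l _ => ?_
  by_cases hl : In0 S l
  · rw [h1 r l hr hl]
  · rw [gc2_zero hg hh hr hc hl, gc2_one_left hr hl, zero_mul]

/-- PROOF. As above. -/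
theorem BT_mul_right {S : Finset b.support} {g h : GK b L} (hg : g ∈ PS S) (hh : h ∈ PS S) (h1 : BT S h) {r c : I b} (hr : In0 S r) (hc : In0 S c) : (g * h).1.1 r c = g.1.1 r c := by
  have e : g.1.1 r c = ∑ l, g.1.1 r l * (1 : Matrix (I b) (I b) L) l c := by
    rw [← Matrix.mul_apply, Matrix.mul_one]
  rw [gc2_mul, e]
  refine Finset.sum_congr rfl fun l _ => ?_
  by_cases hl : In0 S l
  · rw [h1 l c hl hc]
  · have h2 : (1 : Matrix (I b) (I b) L) l c = 0 := Matrix.one_apply_ne (fun he => hl (he.symm ▸ hc))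
    rw [gc2_zero hg hh hr hc hl, h2, mul_zero]

/-- PROOF. `BT_mul_left`. -/
theorem BT_mul {S : Finset b.support} {g h : GK b L} (hg : g ∈ PS S) (hh : h ∈ PS S) (h1 : BT S g) (h2 : BT S h) : BT S (g * h) := by
  intro r c hr hc
  rw [BT_mul_left hg hh h1 hr hc]
  exact h2 r c hr hc

/-- PROOF. `g * g⁻¹ = 1` and `BT_mul_left`. -/
theorem BT_inv {S : Finset b.support} {g : GK b L} (hg : g ∈ PS S) (h1 : BT S g) : BT S g⁻¹ := by
  intro r c hr hc
  rw [← BT_mul_left hg (inv_mem hg) h1 hr hc, mul_inv_cancel]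
  rfl

/-- PROOF. The block of `p q p⁻¹` is the block of `p p⁻¹` (`BT_mul_right` for `p q`, then the product with `p⁻¹`: write the sum over the block only). -/
theorem BT_conj {S : Finset b.support} {p q : GK b L} (hp : p ∈ PS S) (hq : q ∈ PS S) (h1 : BT S q) : BT S (p * q * p⁻¹) := by
  intro r c hr hc
  have e : (p * q * p⁻¹).1.1 r c = (p * p⁻¹).1.1 r c := by
    rw [gc2_mul, gc2_mul]
    refine Finset.sum_congr rfl fun l _ => ?_
    by_cases hl : In0 S l
    · rw [BT_mul_right hp hq h1 hr hl]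
    · rw [gc2_zero (mul_mem hp hq) (inv_mem hp) hr hc hl, gc2_zero hp (inv_mem hp) hr hc hl]
  rw [e, mul_inv_cancel]
  rfl

end

end Pool.Agent.Lib.H29Q
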