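import Pool.Agent.Lib.H29Q.GC2
import Pool.Agent.Lib.L8.FC.D1

/-!
# GC2B (M): the elements of `U_B` have a trivial block
-/

namespace Pool.Agent.Lib.H29Q

open MeasureTheory Matrix NumberField IsDedekindDomain Pool.Agent.Lib.H89N Pool.Agent.Lib.H33W Pool.Agent.Lib.H67G Pool.Agent.Lib.L1S Pool.Agent.Lib.L8.QF Pool.Agent.Lib.L8.FL
open scoped ENNReal

noncomputable section

set_option linter.unusedSectionVars false
set_option linter.unusedVariables false

variable {ι M N : Type} [Fintype ι] [DecidableEq ι] [AddCommGroup M] [Module ℚ M] [AddCommGroup N] [Module ℚ N]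
  {P : RootPairing ι ℚ M N} [P.IsCrystallographic] [P.IsReduced] [P.IsIrreducible] [P.IsRootSystem]
  {b : P.Base} {L : Type} [Field L] [NumberField L]

/-- The height is the sum of the coefficients. -/
theorem gc2b_ht (r : I b) : ht b r = ∑ k : b.support, mc b k r := by
  rcases r with i | γ
  · exact (Finset.sum_eq_zero fun k _ => rfl).symm
  · have h : ((ht b (Sum.inr γ) : ℤ) : ℚ) = ((∑ k : b.support, mc b k (Sum.inr γ) : ℤ) : ℚ) := by
      rw [show ht b (Sum.inr γ) = b.height γ from rfl, b1_height, Int.cast_sum]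
      exact Finset.sum_congr rfl fun k _ => (Pool.Agent.Lib.L8.FC.mc_root b k γ).symm
    exact_mod_cast h

/-- The height of the image of a root. -/
theorem gc2b_w {w : Equiv.Perm ι} (hw : w ∈ WP P) (β : ι) : ht b (Sum.inr (w β)) = ∑ k : b.support, mc b k (Sum.inr β) * ht b (Sum.inr (w (k : ι))) := by
  rw [gc2b_ht]
  simp only [gc2b_ht, Finset.mul_sum]
  rw [Finset.sum_comm]
  exact Finset.sum_congr rfl fun l _ => Pool.Agent.Lib.L8.FC.mc_image b hw l β

/-- The height of the row of a nonzero entry. -/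
theorem gc2b_n {w : Equiv.Perm ι} {n : GK b L} (hn : IsN b L w n) {r c : I b} (h : n.1.1 r c ≠ 0) :
    ht b r = ∑ k : b.support, mc b k c * ht b (Sum.inr (w (k : ι))) := by
  rcases c with j | β
  · obtain ⟨i, rfl⟩ := hn.v0 r j h
    exact (Finset.sum_eq_zero fun k _ => zero_mul _).symm
  · rw [hn.vr r β h]
    exact gc2b_w hn.mem β

/-- The height of the column of a nonzero entry of the inverse. -/
theorem gc2b_n' {w : Equiv.Perm ι} {n : GK b L} (hn : IsN b L w n) {r c : I b} (h : n⁻¹.1.1 r c ≠ 0) :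
    ht b c = ∑ k : b.support, mc b k r * ht b (Sum.inr (w (k : ι))) := by
  rcases c with j | β
  · obtain ⟨i, rfl⟩ := (b1_inv b L hn).v0 r j h
    exact (Finset.sum_eq_zero fun k _ => zero_mul _).symm
  · rw [(b1_inv b L hn).vr r β h, ← gc2b_w hn.mem]
    have e : w (w⁻¹ β) = β := w.apply_symm_apply β
    rw [e]

/-- **The elements of `U_B` have a trivial block** if `w_B α_j > 0` for all `j ∈ S`. PROOF. (As `H29F.Gk.Uw_cc`.) Let `g ∈ U_B`, `n = n_B`, `v = n g n⁻¹ ∈ V`, and suppose `g r c ≠ 0` for `r`, `c` in the block. For all `k`: `mc b k r ≥ mc b k c` (`HU_PJ`). If `wt r = wt c` (all coefficients equal): `r = c` or both are `inl _`,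
`ht r = ht c`, so `g r c = 1 r c` (`g ∈ HU`). Otherwise `wt r - wt c = ∑_(j ∈ S) a_j α_j`, `a_j ≥ 0` not all `0`. `g = n⁻¹ v n`: there are `r'`, `c'` with `n⁻¹ r r' ≠ 0`, `v r' c' ≠ 0`, `n c' c ≠ 0`; `n` is over `w = w_B` (`isn_nW'`), so `wt r' = w wt r`, `wt c' = w wt c` (the weight of `inl _` is `0`), and
`wt r' - wt c' = ∑ a_j w α_j` is a nonzero sum of positive roots: its height is positive, so `ht r' > ht c'`, but `v r' c' ≠ 0` for `v ∈ V` needs `ht r' < ht c'` or `r' = c'` (`v - 1` lowers the height). Useful: `IsN.vr`, `IsN.v0` (L1S/B0), `L8.FC.mc_image`, `mc_pos`, `mc_simple`, `mc_ng` (L8/FC/D1.lean; import it), `b1_ht`: the height of `w γ` for `γ = ∑ m_k α_k` is `∑ m_k ht (w α_k)`. -/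
theorem Uw_BT {S : Finset b.support} {B : List b.support} (hB : ∀ j ∈ S, b.IsPos (wW b B j)) {g : GK b L} (hg : g ∈ Uw b L B) : BT S g := by
  intro r c hr hc
  by_contra hne
  have hn := isn_nW' (b := b) (L := L) B
  have hv : nW b L B * g * (nW b L B)⁻¹ ∈ HV b L := hg.2
  have hU : g ∈ HU b L := Uw_HU hg
  generalize nW b L B = n at hn hv
  have hv' : ∀ r c, -ht b r ≤ -ht b c → (n * g * n⁻¹).1.1 r c = (1 : Matrix (I b) (I b) L) r c ∧
      (n * g * n⁻¹)⁻¹.1.1 r c = (1 : Matrix (I b) (I b) L) r c := hv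
  have h1 : ht b c < ht b r := by
    by_contra hle
    exact hne ((mem_HU b L g).1 hU r c (not_lt.1 hle)).1
  have h2 : r ≠ c := by
    rintro rfl
    exact lt_irrefl _ h1
  have h3 : g.1.1 r c ≠ 0 := by
    rw [Matrix.one_apply_ne h2] at hne
    exact hne
  have h4 : ∀ k, mc b k c ≤ mc b k r := by
    intro k
    by_contra hlt
    exact h3 (HU_PJ hU k r c (not_le.1 hlt))
  have e : g = n⁻¹ * (n * g * n⁻¹) * n := by group
  have e2 : (n⁻¹ * (n * g * n⁻¹) * n).1.1 r c = ∑ c', (∑ r', n⁻¹.1.1 r r' * (n * g * n⁻¹).1.1 r' c') * n.1.1 c' c := by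
    have e3 : (n⁻¹ * (n * g * n⁻¹) * n).1.1 = n⁻¹.1.1 * (n * g * n⁻¹).1.1 * n.1.1 := rfl
    rw [e3, Matrix.mul_apply]
    exact Finset.sum_congr rfl fun c' _ => by rw [Matrix.mul_apply]
  rw [← e] at e2
  apply h3
  rw [e2]
  refine Finset.sum_eq_zero fun c' _ => ?_
  by_cases hc' : n.1.1 c' c = 0
  · rw [hc', mul_zero]
  · rw [Finset.sum_eq_zero, zero_mul]
    intro r' _
    by_cases hr' : n⁻¹.1.1 r r' = 0
    · rw [hr', zero_mul]
    · have h5 := gc2b_n hn hc'
      have h6 := gc2b_n' hn hr'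
      have h7 : 0 < ht b r' - ht b c' := by
        rw [h5, h6, ← Finset.sum_sub_distrib]
        have h8 : ∃ k, mc b k c < mc b k r := by
          by_contra hcon
          push Not at hcon
          rw [gc2b_ht, gc2b_ht] at h1
          exact absurd (Finset.sum_le_sum fun k _ => hcon k) (not_le.2 h1)
        obtain ⟨k, hk⟩ := h8
        have hS : ∀ j : b.support, j ∉ S → mc b j r * ht b (Sum.inr (wW b B (j : ι))) - mc b j c * ht b (Sum.inr (wW b B (j : ι))) = 0 := by
          intro j hj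
          rw [hr j hj, hc j hj, zero_mul, sub_self]
        have hkS : k ∈ S := by
          by_contra hk'
          rw [hr k hk', hc k hk'] at hk
          exact lt_irrefl _ hk
        have hpos : ∀ j ∈ S, 0 < ht b (Sum.inr (wW b B ((j : b.support) : ι))) := fun j hj => hB j hj
        refine Finset.sum_pos' (fun j _ => ?_) ⟨k, Finset.mem_univ k, ?_⟩
        · by_cases hj : j ∈ S
          · rw [← sub_mul]
            exact mul_nonneg (sub_nonneg.2 (h4 j)) (hpos j hj).le
          · rw [hS j hj]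
        · rw [← sub_mul]
          exact mul_pos (sub_pos.2 hk) (hpos k hkS)
      have h9 : r' ≠ c' := by
        rintro rfl
        rw [sub_self] at h7
        exact lt_irrefl _ h7
      rw [(hv' r' c' (by omega)).1, Matrix.one_apply_ne h9, mul_zero]

end

end Pool.Agent.Lib.H29Q
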