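import Pool.Agent.Lib.H29Q.GC1
import Pool.Agent.Lib.H29Q.GC2B

/-!
# GC3 (S/M): the letter group normalises
-/

namespace Pool.Agent.Lib.H29Q

open MeasureTheory Matrix NumberField IsDedekindDomain Pool.Agent.Lib.H89N Pool.Agent.Lib.H33W Pool.Agent.Lib.H67G Pool.Agent.Lib.L1S Pool.Agent.Lib.L8.QF Pool.Agent.Lib.L8.FL
open scoped ENNReal

noncomputable section

set_option linter.unusedSectionVars false
set_option linter.unusedVariables false

variable {ι M N : Type} [Fintype ι] [DecidableEq ι] [AddCommGroup M] [Module ℚ M] [AddCommGroup N] [Module ℚ N]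
  {P : RootPairing ι ℚ M N} [P.IsCrystallographic] [P.IsReduced] [P.IsIrreducible] [P.IsRootSystem]
  {b : P.Base} {L : Type} [Field L] [NumberField L]

/-- **Faithfulness of the block.** PROOF. Induction on `A` (`x` arbitrary). `A = []`: `Uw_nil`. `A = i :: A'`: `i ∈ S`; the places `inl i` and `inr (-α_i)` (`ng P i`) are in the block (`mc b k (inr (ng P i)) = - mc b k (inr i) = 0` for `k ∉ S`, `k ≠ i`: `L8.FC.mc_ng`, `mc_simple`), so `cc i x = 0`. `x' = n_i x n_i⁻¹ ∈ U_A'`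
(`Uw_down'`), and `BT S x'` (`BT_conj`, `m_i(1) ∈ PS S`: `nW_PS` for `A = [i]`), `x ∈ PS S` (`HU_PS`). By induction `x' = 1`, so `x = 1`. -/
theorem BT_eq_one {S : Finset b.support} {A : List b.support} (hS : ∀ a ∈ A, a ∈ S) (hA : RedW b A) {x : GK b L} (hx : x ∈ Uw b L A) (h : BT S x) : x = 1 := by
  induction A generalizing x with
  | nil =>
    rw [Uw_nil] at hx
    exact Subgroup.mem_bot.1 hx
  | cons i A' ih =>
    have hi : i ∈ S := hS i (List.mem_cons_self)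
    have hin1 : In0 S (Sum.inl i : I b) := fun k _ => rfl
    have hin2 : In0 S (Sum.inr (ng P i) : I b) := by
      intro k hk
      have hne : i ≠ k := by
        rintro rfl
        exact hk hi
      rw [L8.FC.mc_ng, L8.FC.mc_simple, if_neg hne, neg_zero]
    have h0 : cc i x = 0 := by
      have h1 := h _ _ hin1 hin2
      unfold cc
      rw [h1]
      exact Matrix.one_apply_ne (by simp)
    have hm : b1m b L i 1 ∈ PS S := by
      have h1 := nW_PS (L := L) (S := S) (A := [i]) (by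
        intro a ha
        rw [List.mem_singleton] at ha
        rw [ha]
        exact hi)
      have h2 : nW b L [i] = b1m b L i 1 := one_mul _
      rw [h2] at h1
      exact h1
    have hx' := Uw_down' hx h0
    have hb := BT_conj hm (HU_PS S hx.1) h
    have h1 := ih (fun a ha => hS a (List.mem_cons_of_mem _ ha)) hA.2 hx' hb
    have h2 : x = (b1m b L i 1)⁻¹ * (b1m b L i 1 * x * (b1m b L i 1)⁻¹) * b1m b L i 1 := by group
    rw [h2, h1]
    group

/-- **`n_A⁻¹ U_B n_A` is normalised by `U_A`.** PROOF. `n = n_A`, `y = n⁻¹ g n ∈ U_(A B)` (`Uw_up_list`), `BT S g` (`Uw_BT`), so `BT S y` (`BT_conj` with `p = n⁻¹`, `nW_PS`), `BT S (x y x⁻¹)` (`BT_conj`, `HU_PS`). `u = x y x⁻¹ ∈ U_(A B)` (`Uw_le_list`). `Uw_dec_list`: `x' ∈ U_A` with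
`g' = n (u x'⁻¹) n⁻¹ ∈ U_B`; `u x'⁻¹ = n⁻¹ g' n` has a trivial block (as `y`), so `x' = (u x'⁻¹)⁻¹ u` has (`BT_mul`, `BT_inv`), `x' = 1` (`BT_eq_one`), and `n u n⁻¹ = g' ∈ U_B`. -/
theorem Uw_nrm {S : Finset b.support} {A B : List b.support} (hS : ∀ a ∈ A, a ∈ S) (h : RedW b (A ++ B)) (hA : RedW b A) (hB : ∀ j ∈ S, b.IsPos (wW b B j)) {x g : GK b L} (hx : x ∈ Uw b L A) (hg : g ∈ Uw b L B) :
    nW b L A * (x * ((nW b L A)⁻¹ * g * nW b L A) * x⁻¹) * (nW b L A)⁻¹ ∈ Uw b L B := by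
  set n := nW b L A with hn
  have hnP : n ∈ PS S := nW_PS hS
  have hnP' : n⁻¹ ∈ PS S := inv_mem hnP
  have hconj : ∀ q : GK b L, q ∈ PS S → BT S q → BT S (n⁻¹ * q * n) := by
    intro q hq h1
    have h2 := BT_conj hnP' hq h1
    rw [inv_inv] at h2
    exact h2
  have hgB := Uw_BT hB hg
  have hgP : g ∈ PS S := HU_PS S hg.1
  have hy : n⁻¹ * g * n ∈ Uw b L (A ++ B) := Uw_up_list h hg
  have hyB := hconj g hgP hgB
  have hxP : x ∈ PS S := HU_PS S hx.1
  have hxAB : x ∈ Uw b L (A ++ B) := Uw_le_list h hA hx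
  have hyP : n⁻¹ * g * n ∈ PS S := HU_PS S hy.1
  have hu : x * (n⁻¹ * g * n) * x⁻¹ ∈ Uw b L (A ++ B) := mul_mem (mul_mem hxAB hy) (inv_mem hxAB)
  have huB : BT S (x * (n⁻¹ * g * n) * x⁻¹) := BT_conj hxP hyP hyB
  have huP : x * (n⁻¹ * g * n) * x⁻¹ ∈ PS S := HU_PS S hu.1
  set u := x * (n⁻¹ * g * n) * x⁻¹ with hudef
  obtain ⟨x', hx', hg', _⟩ := Uw_dec_list h hA hu
  have hg'B := Uw_BT hB hg'
  have hg'P : n * (u * x'⁻¹) * n⁻¹ ∈ PS S := HU_PS S hg'.1
  have h1 := hconj _ hg'P hg'B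
  have e1 : n⁻¹ * (n * (u * x'⁻¹) * n⁻¹) * n = u * x'⁻¹ := by group
  rw [e1] at h1
  have hx'P : x' ∈ PS S := HU_PS S hx'.1
  have hqP : u * x'⁻¹ ∈ PS S := mul_mem huP (inv_mem hx'P)
  have h2 : BT S ((u * x'⁻¹)⁻¹ * u) := BT_mul (inv_mem hqP) huP (BT_inv hqP h1) huB
  have e2 : (u * x'⁻¹)⁻¹ * u = x' := by group
  rw [e2] at h2
  have h3 := BT_eq_one hS hA hx' h2
  rw [h3, inv_one, mul_one] at hg'
  exact hg'

end

end Pool.Agent.Lib.H29Q
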