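import Pool.Agent.Lib.H29Q.GC4A

/-!
# GC4 (M): orbits of simple roots and their words
-/

namespace Pool.Agent.Lib.H29Q

open MeasureTheory Matrix NumberField IsDedekindDomain Pool.Agent.Lib.H89N Pool.Agent.Lib.H33W Pool.Agent.Lib.H67G Pool.Agent.Lib.L1S Pool.Agent.Lib.L8.QF Pool.Agent.Lib.L8.FL
open scoped ENNReal

noncomputable section

set_option linter.unusedSectionVars false
set_option linter.unusedVariables false

variable {ι M N : Type} [Fintype ι] [DecidableEq ι] [AddCommGroup M] [Module ℚ M] [AddCommGroup N] [Module ℚ N]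
  {P : RootPairing ι ℚ M N} [P.IsCrystallographic] [P.IsReduced] [P.IsIrreducible] [P.IsRootSystem]
  {b : P.Base} {K L : Type} [Field K] [NumberField K] [Field L] [NumberField L] [Algebra K L] {Q : QS b K L}

theorem gc4_orb_So {i j : b.support} : j ∈ orb Q i ↔ j ∈ So Q i := by
  rw [mem_So]
  unfold L8.QF.orb
  simp

theorem gc4_refl_fix {j k : ι} (h : P.pairingIn ℤ j k = 0) : P.reflectionPerm k j = j := by
  apply P.root.injective
  rw [P.root_reflectionPerm, P.reflection_apply_root]
  have h1 : P.pairing j k = 0 := by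
    rw [← P.algebraMap_pairingIn ℤ, h, map_zero]
  rw [h1, zero_smul, sub_zero]

theorem gc4_sisj {i j : ι} (h1 : P.pairingIn ℤ i j = -1) (h2 : P.pairingIn ℤ j i = -1) :
    P.reflectionPerm i (P.reflectionPerm j i) = j := by
  have e1 : P.pairing i j = -1 := by
    rw [← P.algebraMap_pairingIn ℤ, h1]
    simp
  have e2 : P.pairing j i = -1 := by
    rw [← P.algebraMap_pairingIn ℤ, h2]
    simp
  apply P.root.injective
  rw [P.root_reflectionPerm, P.root_reflectionPerm, P.reflection_apply_root, e1, map_sub, map_smul,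
    P.reflection_apply_root, P.reflection_apply_root, e2, P.pairing_same]
  module

theorem gc4_append (A B : List b.support) : wW b (A ++ B) = wW b B * wW b A := by
  induction A with
  | nil =>
    show wW b B = wW b B * 1
    rw [mul_one]
  | cons k A ih =>
    show wW b (A ++ B) * P.reflectionPerm (k : ι) = wW b B * (wW b A * P.reflectionPerm (k : ι))
    rw [ih, mul_assoc]

/-- PROOF. `b.cartanMatrix i j = P.pairingIn ℤ i j`; all elements of the orbit: if `j = s i`, `k = t i` and `⟨α_j, α_k^∨⟩ ≠ 0`, `j ≠ k`, then `⟨α_i, α_(s⁻¹ t i)^∨⟩ ≠ 0` (`qx_pair_sp`), against `Orth`. -/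
theorem orth_pair {i : b.support} (h : Orth Q i) {j k : b.support} (hj : j ∈ orb Q i) (hk : k ∈ orb Q i) (hjk : j ≠ k) : P.pairingIn ℤ (j : ι) (k : ι) = 0 := by
  obtain ⟨t, ht⟩ := mem_So.1 (gc4_orb_So.1 hk)
  have hj' : (Q.da t⁻¹).sp j ∈ So Q i := (So_sp t⁻¹).2 (gc4_orb_So.1 hj)
  have h1 : P.pairingIn ℤ (((Q.da t⁻¹).sp j : b.support) : ι) (i : ι) = P.pairingIn ℤ (j : ι) (k : ι) := by
    rw [← qx_pair_sp Q t, qx_sp_inv', ht]
  have h2 : (Q.da t⁻¹).sp j ≠ i := by
    intro hc
    apply hjk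
    rw [← ht, ← hc, qx_sp_inv']
  by_contra hne
  refine h ⟨(Q.da t⁻¹).sp j, gc4_orb_So.2 hj', h2, ?_⟩
  intro hc
  have hc' : P.pairingIn ℤ (i : ι) (((Q.da t⁻¹).sp j : b.support) : ι) = 0 := hc
  rw [qx_sym Q (So_self Q i) hj', h1] at hc'
  exact hne hc'

/-- PROOF. By the two cases of `ow`; in the adjacent case `h.choose` is the `j` of `orb_adj`. -/
theorem mem_ow {i j : b.support} : j ∈ ow Q i ↔ j ∈ orb Q i := by
  unfold ow
  split_ifs with h
  · obtain ⟨j0, h1, h2, _, _⟩ := orb_adj h
    obtain ⟨hc1, hc2, _⟩ := h.choose_spec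
    have hc : h.choose = j0 := by
      have hc3 := (Finset.ext_iff.1 h2 h.choose).1 hc1
      rw [Finset.mem_insert, Finset.mem_singleton] at hc3
      exact hc3.resolve_left hc2
    rw [hc, h2]
    simp only [List.mem_cons, List.not_mem_nil, Finset.mem_insert, Finset.mem_singleton]
    tauto
  · exact Finset.mem_toList

/-- The word of an adjacent pair. PROOF. The definition of `ow`; `h.choose ∈ orb Q i = {i, j}`, `≠ i`. -/
theorem ow_adj {i : b.support} (h : ∃ j ∈ orb Q i, j ≠ i ∧ b.cartanMatrix i j ≠ 0) :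
    ∃ j, j ≠ i ∧ orb Q i = {i, j} ∧ ow Q i = [i, j, i] ∧ P.pairingIn ℤ (i : ι) (j : ι) = -1 ∧ P.pairingIn ℤ (j : ι) (i : ι) = -1 := by
  obtain ⟨j0, h1, h2, h3, h4⟩ := orb_adj h
  obtain ⟨hc1, hc2, _⟩ := h.choose_spec
  have hc : h.choose = j0 := by
    have hc3 := (Finset.ext_iff.1 h2 h.choose).1 hc1
    rw [Finset.mem_insert, Finset.mem_singleton] at hc3
    exact hc3.resolve_left hc2
  refine ⟨j0, h1, h2, ?_, h3, h4⟩
  unfold ow
  rw [dif_pos h, hc]

/-- The word of an orthogonal orbit. PROOF. The definition of `ow`. -/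
theorem ow_orth {i : b.support} (h : Orth Q i) : ow Q i = (orb Q i).toList := by
  unfold ow
  exact dif_neg h

/-- A word of pairwise orthogonal simple roots without repetition fixes the other ones. PROOF. Induction: `s_k α_j = α_j` for `⟨α_j, α_k^∨⟩ = 0` (the root of `P.reflectionPerm k j` is `α_j - ⟨α_j, α_k^∨⟩ α_k`). -/
theorem wW_orth {A : List b.support} {j : b.support} (h : ∀ k ∈ A, k ≠ j ∧ P.pairingIn ℤ (j : ι) (k : ι) = 0) : wW b A (j : ι) = (j : ι) := by
  induction A with
  | nil => rfl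
  | cons k A ih =>
    have h1 : P.reflectionPerm (k : ι) (j : ι) = (j : ι) := gc4_refl_fix (h k List.mem_cons_self).2
    have h2 : wW b (k :: A) (j : ι) = wW b A (P.reflectionPerm (k : ι) (j : ι)) := rfl
    rw [h2, h1]
    exact ih fun l hl => h l (List.mem_cons_of_mem _ hl)

theorem gc4_red (A : List b.support) (hnd : A.Nodup)
    (horth : ∀ j ∈ A, ∀ k ∈ A, j ≠ k → P.pairingIn ℤ (j : ι) (k : ι) = 0) : RedW b A := by
  induction A with
  | nil => exact trivial
  | cons k A ih =>
    rw [List.nodup_cons] at hnd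
    refine ⟨?_, ih hnd.2 fun j hj l hl => horth j (List.mem_cons_of_mem _ hj) l (List.mem_cons_of_mem _ hl)⟩
    have h1 : wW b A (k : ι) = (k : ι) := by
      refine wW_orth fun l hl => ?_
      have hlk : l ≠ k := by
        intro hc
        rw [hc] at hl
        exact hnd.1 hl
      exact ⟨hlk, horth k List.mem_cons_self l (List.mem_cons_of_mem _ hl) hlk.symm⟩
    rw [h1]
    exact b.isPos_of_mem_support k.2

theorem gc4_pos (B : List b.support) (A : List b.support) (hnd : A.Nodup)
    (horth : ∀ j ∈ A, ∀ k ∈ A, j ≠ k → P.pairingIn ℤ (j : ι) (k : ι) = 0) (hred : RedW b (A ++ B)) :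
    ∀ j ∈ A, b.IsPos (wW b B (j : ι)) := by
  induction A with
  | nil =>
    intro j hj
    exact absurd hj List.not_mem_nil
  | cons k A ih =>
    rw [List.nodup_cons] at hnd
    have hred' : b.IsPos (wW b (A ++ B) (k : ι)) ∧ RedW b (A ++ B) := hred
    have hih := ih hnd.2 (fun j hj l hl => horth j (List.mem_cons_of_mem _ hj) l (List.mem_cons_of_mem _ hl)) hred'.2
    intro j hj
    rcases List.mem_cons.1 hj with hjk | hj'
    · rw [hjk]
      have h1 : wW b A (k : ι) = (k : ι) := by
        refine wW_orth fun l hl => ?_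
        have hlk : l ≠ k := by
          intro hc
          rw [hc] at hl
          exact hnd.1 hl
        exact ⟨hlk, horth k List.mem_cons_self l (List.mem_cons_of_mem _ hl) hlk.symm⟩
      have h2 := hred'.1
      rw [gc4_append, Equiv.Perm.mul_apply, h1] at h2
      exact h2
    · exact hih j hj'

/-- **The words of the orbits are reduced.** PROOF. Orthogonal: by induction on a duplicate free list of pairwise orthogonal roots (`wW_orth`; `b.isPos_of_mem_support`). Adjacent `[i, j, i]`: `α_i > 0`; `s_i α_j = α_i + α_j > 0`; `s_i s_j α_i = s_i (α_i + α_j) = α_j > 0`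
(`wW [j, i] = wW [i] * s_j = s_i s_j`). -/
theorem redW_ow (Q : QS b K L) (i : b.support) : RedW b (ow Q i) := by
  by_cases h : Orth Q i
  · rw [ow_orth h]
    refine gc4_red (orb Q i).toList (orb Q i).nodup_toList ?_
    intro j hj k hk hjk
    rw [Finset.mem_toList] at hj hk
    exact orth_pair h hj hk hjk
  · have h' : ∃ j ∈ orb Q i, j ≠ i ∧ b.cartanMatrix i j ≠ 0 := not_not.1 h
    obtain ⟨j0, h1, h2, h3, h4, h5⟩ := ow_adj h'
    rw [h3]
    have hi : b.IsPos (i : ι) := b.isPos_of_mem_support i.2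
    have hj : b.IsPos (j0 : ι) := b.isPos_of_mem_support j0.2
    refine ⟨?_, ?_, ?_, trivial⟩
    · have e1 : wW b [j0, i] (i : ι) = P.reflectionPerm (i : ι) (P.reflectionPerm (j0 : ι) (i : ι)) := rfl
      rw [e1, gc4_sisj h4 h5]
      exact hj
    · have e1 : wW b [i] (j0 : ι) = P.reflectionPerm (i : ι) (j0 : ι) := rfl
      rw [e1]
      refine hj.reflectionPerm i.2 fun hc => h1 (Subtype.ext hc)
    · exact hi

/-- **`w_B α_j > 0` for all `j` in the orbit** if `ow Q i ++ B` is reduced. PROOF. Orthogonal: for a duplicate free list `A` of pairwise orthogonal roots and `RedW b (A ++ B)`: `wW (A' ++ B) = wW B * wW A'` (`GC1.wW_append`, prove it here by induction if needed) and `wW A' α_j = α_j` (`wW_orth`). Adjacent: `w_B α_i > 0`,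
`w_B s_i α_j = w_B (α_i + α_j) > 0`, `w_B s_i s_j α_i = w_B α_j > 0`. -/
theorem pos_of_redW {i : b.support} {B : List b.support} (h : RedW b (ow Q i ++ B)) {j : b.support} (hj : j ∈ orb Q i) : b.IsPos (wW b B j) := by
  by_cases h0 : Orth Q i
  · rw [ow_orth h0] at h
    refine gc4_pos B (orb Q i).toList (orb Q i).nodup_toList ?_ h j (Finset.mem_toList.2 hj)
    intro j hj k hk hjk
    rw [Finset.mem_toList] at hj hk
    exact orth_pair h0 hj hk hjk
  · have h' : ∃ j ∈ orb Q i, j ≠ i ∧ b.cartanMatrix i j ≠ 0 := not_not.1 h0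
    obtain ⟨j0, h1, h2, h3, h4, h5⟩ := ow_adj h'
    rw [h3] at h
    obtain ⟨r1, r2, r3, _⟩ := h
    rw [h2, Finset.mem_insert, Finset.mem_singleton] at hj
    rcases hj with rfl | rfl
    · exact r3
    · have e1 : wW b (j :: i :: B) (i : ι) = wW b B (P.reflectionPerm (i : ι) (P.reflectionPerm (j : ι) (i : ι))) := rfl
      have r1' : b.IsPos (wW b (j :: i :: B) (i : ι)) := r1
      rw [e1, gc4_sisj h4 h5] at r1'
      exact r1'

end

end Pool.Agent.Lib.H29Q
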