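import Pool.Agent.Lib.H29Q.GC0
import Pool.Agent.Lib.L1S.QX4

/-!
# GC4A (M/L): an orbit with an adjacent pair is this pair
-/

namespace Pool.Agent.Lib.H29Q

open MeasureTheory Matrix NumberField IsDedekindDomain Pool.Agent.Lib.H89N Pool.Agent.Lib.H33W Pool.Agent.Lib.H67G Pool.Agent.Lib.L1S Pool.Agent.Lib.L8.QF Pool.Agent.Lib.L8.FL
open scoped ENNReal

noncomputable section

set_option linter.unusedSectionVars false
set_option linter.unusedVariables false

variable {ι M N : Type} [Fintype ι] [DecidableEq ι] [AddCommGroup M] [Module ℚ M] [AddCommGroup N] [Module ℚ N]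
  {P : RootPairing ι ℚ M N} [P.IsCrystallographic] [P.IsReduced] [P.IsIrreducible] [P.IsRootSystem]
  {b : P.Base} {K L : Type} [Field K] [NumberField K] [Field L] [NumberField L] [Algebra K L] {Q : QS b K L}

/-- The sum of a nonempty set of simple roots is not zero. -/
theorem gc4a_sum_ne {X : Finset b.support} (hX : X.Nonempty) : ∑ x ∈ X, P.root x ≠ 0 := by
  intro h0
  have h1 : ∑ l, b.toWeightBasis.repr (∑ x ∈ X, P.root x) l = (X.card : ℚ) := by
    simp only [map_sum, Finsupp.finsetSum_apply]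
    rw [Finset.sum_comm]
    have h2 : ∀ j ∈ X, ∑ l, b.toWeightBasis.repr (P.root j) l = 1 := by
      intro j _
      have h3 := b1_height b (j : ι)
      rw [RootPairing.Base.height_one_of_mem_support j.2] at h3
      exact_mod_cast h3.symm
    rw [Finset.sum_congr rfl h2]
    simp
  rw [h0, map_zero] at h1
  simp only [Finsupp.coe_zero, Pi.zero_apply, Finset.sum_const_zero] at h1
  have h2 : X.card ≠ 0 := Finset.card_ne_zero.2 hX
  exact h2 (by exact_mod_cast h1.symm)

/-- Some `x ∈ X` has a positive pairing with the sum of `X`. -/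
theorem gc4a_pos {X : Finset b.support} (hX : X.Nonempty) : ∃ x ∈ X, 0 < ∑ y ∈ X, P.pairingIn ℤ (y : ι) (x : ι) := by
  by_contra hcon
  push Not at hcon
  have h1 : 0 < P.RootForm (∑ x ∈ X, P.root x) (∑ x ∈ X, P.root x) := form_pos (gc4a_sum_ne hX)
  have h2 : 2 * P.RootForm (∑ x ∈ X, P.root x) (∑ x ∈ X, P.root x) = ∑ k ∈ X, ((∑ y ∈ X, P.pairingIn ℤ (y : ι) (k : ι) : ℤ) : ℚ) * P.RootForm (P.root k) (P.root k) := by
    have e1 : P.RootForm (∑ x ∈ X, P.root x) (∑ x ∈ X, P.root x) = ∑ k ∈ X, P.RootForm (∑ x ∈ X, P.root x) (P.root k) := map_sum _ _ _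
    rw [e1, Finset.mul_sum]
    refine Finset.sum_congr rfl fun k hk => ?_
    rw [two_form]
    congr 1
    rw [map_sum]
    push_cast
    exact Finset.sum_congr rfl fun j _ => (qx_pair _ _).symm
  have h3 : ∑ k ∈ X, ((∑ y ∈ X, P.pairingIn ℤ (y : ι) (k : ι) : ℤ) : ℚ) * P.RootForm (P.root k) (P.root k) ≤ 0 := by
    refine Finset.sum_nonpos fun k hk => ?_
    have h4 : 0 < P.RootForm (P.root k) (P.root k) := form_pos (P.ne_zero k)
    have h5 : ((∑ y ∈ X, P.pairingIn ℤ (y : ι) (k : ι) : ℤ) : ℚ) ≤ 0 := by exact_mod_cast hcon k hk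
    exact mul_nonpos_of_nonpos_of_nonneg h5 h4.le
  linarith

/-- The Cartan integer vanishes symmetrically. -/
theorem gc4a_symm {x y : b.support} (h : P.pairingIn ℤ (x : ι) (y : ι) ≠ 0) : P.pairingIn ℤ (y : ι) (x : ι) ≠ 0 := by
  intro h1
  apply h
  have h2 : b.cartanMatrix y x = 0 := h1
  have h3 : b.cartanMatrix x y = 0 := (RootPairing.Base.cartanMatrix_apply_eq_zero_iff_symm b).1 h2
  exact h3

/-- Every nonempty set of simple roots has a leaf. -/
theorem gc4a_leaf {X : Finset b.support} (hX : X.Nonempty) : ∃ x ∈ X, ∀ y ∈ X, ∀ z ∈ X, y ≠ x → z ≠ x → P.pairingIn ℤ (y : ι) (x : ι) ≠ 0 → P.pairingIn ℤ (z : ι) (x : ι) ≠ 0 → y = z := by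
  obtain ⟨x, hx, h⟩ := gc4a_pos (P := P) hX
  refine ⟨x, hx, fun y hy z hz hyx hzx h1 h2 => ?_⟩
  by_contra hyz
  have e1 : P.pairingIn ℤ (x : ι) (x : ι) = 2 := by simp
  have hy' : y ∈ X.erase x := Finset.mem_erase.2 ⟨hyx, hy⟩
  have hz' : z ∈ (X.erase x).erase y := Finset.mem_erase.2 ⟨fun h => hyz h.symm, Finset.mem_erase.2 ⟨hzx, hz⟩⟩
  rw [← Finset.add_sum_erase _ _ hx, ← Finset.add_sum_erase _ _ hy', ← Finset.add_sum_erase _ _ hz', e1] at h
  have h3 : P.pairingIn ℤ (y : ι) (x : ι) ≤ 0 := qx_nonpos hyx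
  have h4 : P.pairingIn ℤ (z : ι) (x : ι) ≤ 0 := qx_nonpos hzx
  have h5 : ∑ l ∈ ((X.erase x).erase y).erase z, P.pairingIn ℤ (l : ι) (x : ι) ≤ 0 :=
    Finset.sum_nonpos fun l hl => qx_nonpos (Finset.ne_of_mem_erase (Finset.mem_of_mem_erase (Finset.mem_of_mem_erase hl)))
  omega

/-- The induction on the number of elements of `X`. -/
theorem gc4a_ind {i : b.support} {nb : b.support → b.support} (H : Nb Q i nb) (n : ℕ) :
    ∀ X : Finset b.support, X.card = n → (∀ s j, (Q.da s).sp j ∈ X ↔ j ∈ X) → So Q i ⊆ X →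
    (∀ Y : Finset b.support, Y ⊆ X → Y.Nonempty → (∀ y ∈ Y, ∀ z ∈ X, z ≠ y → P.pairingIn ℤ (z : ι) (y : ι) ≠ 0 → z ∈ Y) → X ⊆ Y) →
    So Q i ⊆ {i, nb i} := by
  induction n using Nat.strong_induction_on with
  | _ n ih =>
    intro X hn hst hS hc
    have hi : i ∈ X := hS (So_self Q i)
    obtain ⟨x, hx, hl⟩ := gc4a_leaf (P := P) (b := b) ⟨i, hi⟩
    have hleaf : ∀ k ∈ So Q x, ∀ y ∈ X, ∀ z ∈ X, y ≠ k → z ≠ k → P.pairingIn ℤ (y : ι) (k : ι) ≠ 0 → P.pairingIn ℤ (z : ι) (k : ι) ≠ 0 → y = z := by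
      intro k hk y hy z hz hyk hzk h1 h2
      obtain ⟨s, rfl⟩ := mem_So.1 hk
      have e1 : (Q.da s⁻¹).sp y = (Q.da s⁻¹).sp z := by
        refine hl _ ((hst _ _).2 hy) _ ((hst _ _).2 hz) (fun h => hyk ?_) (fun h => hzk ?_) ?_ ?_
        · rw [← h, qx_sp_inv']
        · rw [← h, qx_sp_inv']
        · have e2 := qx_pair_sp Q s⁻¹ y ((Q.da s).sp x)
          rw [qx_sp_inv] at e2
          rw [e2]
          exact h1
        · have e2 := qx_pair_sp Q s⁻¹ z ((Q.da s).sp x)
          rw [qx_sp_inv] at e2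
          rw [e2]
          exact h2
      exact (Q.da s⁻¹).sp.injective e1
    by_cases hxS : x ∈ So Q i
    · have hnb : nb i ∈ So Q i := H.mem i (So_self Q i)
      have hSx : ∀ k ∈ So Q i, k ∈ So Q x := by
        intro k hk
        obtain ⟨s, hs⟩ := mem_So.1 hxS
        obtain ⟨t, ht⟩ := mem_So.1 hk
        refine mem_So.2 ⟨t * s⁻¹, ?_⟩
        rw [qx_sp_mul, ← hs, qx_sp_inv, ht]
      have hp1 : P.pairingIn ℤ (nb i : ι) (i : ι) ≠ 0 := by
        rw [H.pair i (So_self Q i)]
        norm_num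
      refine hS.trans (hc {i, nb i} ?_ ⟨i, Finset.mem_insert_self _ _⟩ ?_)
      · intro y hy
        rcases Finset.mem_insert.1 hy with rfl | hy
        · exact hi
        · rw [Finset.mem_singleton.1 hy]
          exact hS hnb
      · intro y hy z hz hzy hp
        rcases Finset.mem_insert.1 hy with rfl | hy
        · have := hleaf y (hSx y (So_self Q y)) z hz (nb y) (hS hnb) hzy (H.ne y (So_self Q y)) hp hp1
          rw [this]
          exact Finset.mem_insert_of_mem (Finset.mem_singleton_self _)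
        · have hy' := Finset.mem_singleton.1 hy
          subst hy'
          have := hleaf (nb i) (hSx _ hnb) z hz i hi hzy (H.ne i (So_self Q i)).symm hp (gc4a_symm hp1)
          rw [this]
          exact Finset.mem_insert_self _ _
    · have hO : ∀ k ∈ So Q x, k ∉ So Q i := by
        intro k hk hk'
        obtain ⟨s, rfl⟩ := mem_So.1 hk
        exact hxS ((So_sp s).1 hk')
      have hXO : (X \ So Q x).card < n := by
        rw [← hn]
        refine Finset.card_lt_card (Finset.ssubset_iff_of_subset Finset.sdiff_subset |>.2 ⟨x, hx, fun h => ?_⟩)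
        exact (Finset.mem_sdiff.1 h).2 (So_self Q x)
      refine ih _ hXO (X \ So Q x) rfl ?_ ?_ ?_
      · intro s j
        rw [Finset.mem_sdiff, Finset.mem_sdiff, hst, So_sp]
      · intro k hk
        exact Finset.mem_sdiff.2 ⟨hS hk, fun h => hO k h hk⟩
      · intro Y hYX hY hYc
        classical
        have hX' : X ⊆ Y ∪ (So Q x).filter (fun o => o ∈ X ∧ ∃ y ∈ Y, P.pairingIn ℤ (y : ι) (o : ι) ≠ 0) := by
          refine hc _ ?_ ?_ ?_
          · intro y hy
            rcases Finset.mem_union.1 hy with hy | hy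
            · exact (Finset.mem_sdiff.1 (hYX hy)).1
            · exact (Finset.mem_filter.1 hy).2.1
          · obtain ⟨y, hy⟩ := hY
            exact ⟨y, Finset.mem_union_left _ hy⟩
          · intro y hy z hz hzy hp
            rcases Finset.mem_union.1 hy with hy | hy
            · by_cases hzO : z ∈ So Q x
              · exact Finset.mem_union_right _ (Finset.mem_filter.2 ⟨hzO, hz, y, hy, gc4a_symm hp⟩)
              · exact Finset.mem_union_left _ (hYc y hy z (Finset.mem_sdiff.2 ⟨hz, hzO⟩) hzy hp)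
            · obtain ⟨hyO, hyX, y', hy', hp'⟩ := Finset.mem_filter.1 hy
              have hy'X := Finset.mem_sdiff.1 (hYX hy')
              have hne : y' ≠ y := by
                rintro rfl
                exact hy'X.2 hyO
              have := hleaf y hyO z hz y' hy'X.1 hzy hne hp hp'
              rw [this]
              exact Finset.mem_union_left _ hy'
        intro z hz
        obtain ⟨hz1, hz2⟩ := Finset.mem_sdiff.1 hz
        rcases Finset.mem_union.1 (hX' hz1) with h | h
        · exact h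
        · exact absurd (Finset.mem_filter.1 h).1 hz2

theorem gc4a_orb (Q : QS b K L) (i : b.support) : orb Q i = So Q i := by
  ext j
  rw [mem_So]
  unfold L8.QF.orb
  simp

/-- **An orbit with an adjacent pair is this pair** (type `A₂ₙ`). PROOF. `L1S/QX4.lean` has (`So Q i` is the orbit): `qx_caseB`, `exists_nb`, structure `Nb Q i nb`: every `k ∈ So Q i` has exactly one neighbour `nb k` in the orbit, with both Cartan integers `-1`. It remains to show that the orbit has only one pair. The Dynkin diagram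
is connected (`P.IsIrreducible`) and has no set `X ≠ ∅` of simple roots in which every `x` has at least two neighbours in `X`: otherwise `v = ∑_(x ∈ X) x / |x|` has `(v, v) = ∑_x (1 + ∑_(y ≠ x) (x, y) / (|x| |y|)) ≤ ∑_x (1 - 2 / 2) = 0` (`(x, y) / (|x| |y|) ≤ - 1/2` for adjacent `x`, `y`), but `v ≠ 0`.
Take `X` minimal (cardinality) among the Galois stable sets of simple roots which contain the orbit `S` and are connected (in the graph of adjacency). If every `x ∈ X` has at least two neighbours in `X`: contradiction. So there is `x ∈ X` with at most one neighbour in `X`. If `x ∉ S`: `X` minus the orbit of `x` is stable, contains `S`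
and is connected (the elements of the orbit of `x` are leaves of `X`, no two of them adjacent, otherwise `X` would be this pair): contradiction to minimality. If `x ∈ S`: by transitivity every `k ∈ S` has only the neighbour `nb k` in `X`, so `{k, nb k}` is a component of `X`, so `X = {k, nb k} = S`. -/
theorem orb_adj {i : b.support} (h : ∃ j ∈ orb Q i, j ≠ i ∧ b.cartanMatrix i j ≠ 0) :
    ∃ j, j ≠ i ∧ orb Q i = {i, j} ∧ P.pairingIn ℤ (i : ι) (j : ι) = -1 ∧ P.pairingIn ℤ (j : ι) (i : ι) = -1 := by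
  obtain ⟨j, hj, hji, hcij⟩ := h
  rw [gc4a_orb] at hj ⊢
  have hne2 : ∑ j ∈ So Q i, P.pairingIn ℤ (j : ι) (i : ι) ≠ 2 := by
    intro h2
    have h3 := qx_caseA Q h2 (So_self Q i) hj (fun h => hji h.symm)
    exact hcij h3
  obtain ⟨nb, H⟩ := exists_nb Q hne2
  have hsub : So Q i ⊆ {i, nb i} := by
    refine gc4a_ind H _ Finset.univ rfl (fun s j => by simp) (Finset.subset_univ _) ?_
    intro Y _ hY hYc z _
    obtain ⟨y, hy⟩ := hY
    refine b.induction_on_cartanMatrix (fun k => k ∈ Y) hy fun k l hk hkl => ?_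
    by_cases hlk : l = k
    · rw [hlk]
      exact hk
    · exact hYc k hk l (Finset.mem_univ _) hlk hkl
  have hm := H.mem i (So_self Q i)
  refine ⟨nb i, H.ne i (So_self Q i), ?_, ?_, ?_⟩
  · refine Finset.Subset.antisymm hsub ?_
    intro y hy
    rcases Finset.mem_insert.1 hy with rfl | hy
    · exact So_self Q y
    · rw [Finset.mem_singleton.1 hy]
      exact hm
  · rw [qx_sym Q (So_self Q i) hm, H.pair i (So_self Q i)]
  · exact H.pair i (So_self Q i)

end

end Pool.Agent.Lib.H29Q
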