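import Pool.Agent.Lib.H29Q.GC0

/-!
# GC5 (S/M): powers of unipotent elements are integral
-/

namespace Pool.Agent.Lib.H29Q

open MeasureTheory Matrix NumberField IsDedekindDomain Pool.Agent.Lib.H89N Pool.Agent.Lib.H33W Pool.Agent.Lib.H67G Pool.Agent.Lib.L1S Pool.Agent.Lib.L8.QF Pool.Agent.Lib.L8.FL
open scoped ENNReal

noncomputable section

set_option linter.unusedSectionVars false
set_option linter.unusedVariables false

variable {ι M N : Type} [Fintype ι] [DecidableEq ι] [AddCommGroup M] [Module ℚ M] [AddCommGroup N] [Module ℚ N]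
  {P : RootPairing ι ℚ M N} [P.IsCrystallographic] [P.IsReduced] [P.IsIrreducible] [P.IsRootSystem]
  {b : P.Base} {L : Type} [Field L] [NumberField L]

/-- PROOF. `k.choose j * j = k * (k - 1).choose (j - 1)` (`Nat.succ_mul_choose_eq`), so `D ∣ (j ! D).choose ..`: for `1 ≤ j < n` and `m = n ! * D`: `m.choose j = (m / j) (m - 1).choose (j - 1)` and `D ∣ m / j`. -/
theorem dvd_choose {n D j : ℕ} (hj : 1 ≤ j) (hjn : j < n) (k : ℕ) : D ∣ (n.factorial * D * k).choose j := by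
  rcases Nat.eq_zero_or_pos (n.factorial * D * k) with h0 | h0
  · rw [h0, Nat.choose_eq_zero_of_lt (by omega)]
    exact dvd_zero D
  · obtain ⟨q, hq⟩ := Nat.dvd_factorial (by omega : 0 < j) hjn.le
    have h1 : (n.factorial * D * k).choose j * j = (n.factorial * D * k) * (n.factorial * D * k - 1).choose (j - 1) := by
      have h2 := Nat.add_one_mul_choose_eq (n.factorial * D * k - 1) (j - 1)
      rw [Nat.sub_add_cancel h0, Nat.sub_add_cancel hj] at h2
      exact h2.symm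
    refine ⟨q * k * (n.factorial * D * k - 1).choose (j - 1), ?_⟩
    apply Nat.eq_of_mul_eq_mul_right (by omega : 0 < j)
    rw [h1]
    generalize (n.factorial * D * k - 1).choose (j - 1) = z
    rw [hq]
    ring

theorem gc5_int {x : L} (h : IsIntegral ℤ x) : L1S.InI (⊤ : Ideal (𝓞 L)) x := ⟨⟨x, h⟩, Submodule.mem_top, rfl⟩

theorem gc5_nat (q : ℕ) : L1S.InI (⊤ : Ideal (𝓞 L)) (q : L) := ⟨(q : 𝓞 L), Submodule.mem_top, by simp⟩

theorem gc5_den (x : L) : ∃ D : ℕ, 0 < D ∧ L1S.InI (⊤ : Ideal (𝓞 L)) ((D : L) * x) := by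
  have hx : IsAlgebraic ℤ x := (IsFractionRing.isAlgebraic_iff ℤ ℚ L).2 (Algebra.IsAlgebraic.isAlgebraic x)
  obtain ⟨y, hy, h⟩ := hx.exists_integral_multiple
  refine ⟨y.natAbs, Int.natAbs_pos.2 hy, gc5_int ?_⟩
  have h1 : IsIntegral ℤ ((y : L) * x) := by
    have e : (y : L) * x = y • x := by simp
    rw [e]
    exact h
  rcases Int.natAbs_eq y with h2 | h2
  · have e : ((y.natAbs : ℕ) : L) = (y : L) := by
      conv_rhs => rw [h2]
      simp
    rw [e]
    exact h1
  · have e : ((y.natAbs : ℕ) : L) = -(y : L) := by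
      conv_rhs => rw [h2]
      simp
    rw [e, neg_mul]
    exact h1.neg

theorem gc5_dens {α : Type} [Fintype α] (y : α → L) : ∃ D : ℕ, 0 < D ∧ ∀ a, L1S.InI (⊤ : Ideal (𝓞 L)) ((D : L) * y a) := by
  classical
  choose D hD h using fun a => gc5_den (y a)
  refine ⟨∏ a, D a, Finset.prod_pos fun a _ => hD a, fun a => ?_⟩
  rw [← Finset.mul_prod_erase Finset.univ D (Finset.mem_univ a)]
  have e : (((D a * ∏ x ∈ Finset.univ.erase a, D x : ℕ)) : L) * y a = ((D a : L) * y a) * ((∏ x ∈ Finset.univ.erase a, D x : ℕ) : L) := by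
    push_cast
    ring
  rw [e]
  exact (h a).mul (gc5_nat _)

/-- Powers of a unipotent matrix are integral. -/
theorem gc5_mat {n : Type} [Fintype n] [DecidableEq n] {Y : Matrix n n L} (hY : IsNilpotent Y) :
    ∃ c : ℕ, 0 < c ∧ ∀ k : ℕ, ∀ r s, L1S.InI (⊤ : Ideal (𝓞 L)) (((1 + Y) ^ (c * k)) r s) := by
  obtain ⟨q, hq⟩ := hY
  obtain ⟨D, hD, h⟩ := gc5_dens (fun a : (Fin q × n) × n => (Y ^ (a.1.1 : ℕ)) a.1.2 a.2)
  refine ⟨q.factorial * D, Nat.mul_pos (Nat.factorial_pos q) hD, fun k r s => ?_⟩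
  rw [add_comm, (Commute.one_right Y).add_pow, Matrix.sum_apply]
  refine L1S.InI.sum _ _ fun j _ => ?_
  rw [one_pow, mul_one, ← nsmul_eq_mul', Matrix.smul_apply, nsmul_eq_mul]
  rcases Nat.eq_zero_or_pos j with h0 | h0
  · subst h0
    rw [pow_zero]
    by_cases hrs : r = s
    · subst hrs
      rw [Matrix.one_apply_eq, mul_one]
      exact gc5_nat _
    · rw [Matrix.one_apply_ne hrs, mul_zero]
      exact L1S.InI.zero _
  · by_cases hj : j < q
    · obtain ⟨e, he⟩ := dvd_choose (D := D) h0 hj k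
      rw [he]
      have h1 := h ((⟨j, hj⟩, r), s)
      have e1 : ((D * e : ℕ) : L) * (Y ^ j) r s = ((D : L) * (Y ^ j) r s) * (e : L) := by
        push_cast
        ring
      rw [e1]
      exact h1.mul (gc5_nat _)
    · have h2 : Y ^ j = 0 := pow_eq_zero_of_le (not_lt.1 hj) hq
      rw [h2, Matrix.zero_apply, mul_zero]
      exact L1S.InI.zero _

/-- **A power of a unipotent matrix is integral.** PROOF. `X = 1 + Y`, `Y ^ n = 0` (`n` the size; `Y` raises the height: `mem_HU_iff`, or `b3_nil`, `b3_raise` of L1S/B3), `X ^ m = ∑_(j < n) (m choose j) Y ^ j`. Take `D ≥ 1` with `D Y ^ j` integral for all `j < n` (all entries: `qc_den` or `exists_integral_multiples`, finitely many), `m = n ! D`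
and `dvd_choose`. The same `D` (enlarged) for `X⁻¹ = 1 + Y'`. `mem_G1_top'`. -/
theorem HU_div {x : GK b L} (hx : x ∈ HU b L) : ∃ m : ℕ, 0 < m ∧ x ^ m ∈ G1 b (⊤ : Ideal (𝓞 L)) := by
  obtain ⟨c1, hc1, h1⟩ := gc5_mat (b3_nil (b3_raise hx))
  obtain ⟨c2, hc2, h2⟩ := gc5_mat (b3_nil (b3_raise ((HU b L).inv_mem hx)))
  refine ⟨c1 * c2, Nat.mul_pos hc1 hc2, mem_G1_top' fun r c => ⟨?_, ?_⟩⟩
  · have h := h1 c2 r c
    have e : (1 : Matrix (I b) (I b) L) + (x.1.1 - 1) = x.1.1 := by abel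
    rw [e] at h
    exact h
  · have h := h2 c1 r c
    have e : (1 : Matrix (I b) (I b) L) + (x⁻¹.1.1 - 1) = x⁻¹.1.1 := by abel
    rw [e] at h
    rw [← inv_pow, mul_comm c1 c2]
    exact h

end

end Pool.Agent.Lib.H29Q
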