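import Pool.Agent.Lib.H29Q.GC3
import Pool.Agent.Lib.H29Q.GC4
import Pool.Agent.Lib.H29Q.GC5
import Pool.Agent.Lib.H29Q.AQ2
import Pool.Agent.Lib.L8.QF.G0

/-!
# GD: the group data of the fixed group `HF Q` (instance of `QDat`)
-/

namespace Pool.Agent.Lib.H29Q

open MeasureTheory Matrix NumberField IsDedekindDomain Pool.Agent.Lib.H89N Pool.Agent.Lib.H33W Pool.Agent.Lib.H67G Pool.Agent.Lib.L1S Pool.Agent.Lib.L8.QF Pool.Agent.Lib.L8.FL
open scoped ENNReal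

noncomputable section

set_option linter.unusedSectionVars false
set_option linter.unusedVariables false

variable {ι M N : Type} [Fintype ι] [DecidableEq ι] [AddCommGroup M] [Module ℚ M] [AddCommGroup N] [Module ℚ N]
  {P : RootPairing ι ℚ M N} [P.IsCrystallographic] [P.IsReduced] [P.IsIrreducible] [P.IsRootSystem]
  {b : P.Base} {K L : Type} [Field K] [NumberField K] [Field L] [NumberField L] [Algebra K L] {Q : QS b K L}

theorem HF_tG {g : GK b L} (hg : g ∈ HF Q) (s : L ≃ₐ[K] L) : tG Q s g = g := Subtype.ext (Units.ext ((Fx_iff Q _).1 hg.1 s))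

theorem mem_HF_iff {g : GK b L} : g ∈ HF Q ↔ ∀ s, tG Q s g = g := ⟨fun h s => HF_tG h s, fun h => mem_HF (fx_of_tG Q h)⟩

theorem rw_cons (Q : QS b K L) (i : b.support) (l : List b.support) : rw Q (i :: l) = ow Q i ++ rw Q l := rfl

theorem rw_nil (Q : QS b K L) : rw Q ([] : List b.support) = [] := rfl

/-- The representatives of the words in orbits are fixed. -/
theorem nW_HF (hN : ∀ i, nq Q i ∈ HF Q) (l : List b.support) : nW b L (rw Q l) ∈ HF Q := by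
  induction l with
  | nil => exact one_mem _
  | cons i l ih =>
    rw [rw_cons, nW_append]
    exact mul_mem ih (hN i)

/-- `U_A` is stable under `τ_s` if `n_A` is fixed. -/
theorem tG_Uw' {A : List b.support} (hA : nW b L A ∈ HF Q) (s : L ≃ₐ[K] L) {g : GK b L} (hg : g ∈ Uw b L A) : tG Q s g ∈ Uw b L A := by
  refine ⟨(tG_HU Q s g).2 hg.1, ?_⟩
  show nW b L A * tG Q s g * (nW b L A)⁻¹ ∈ HV b L
  have h1 : nW b L A * g * (nW b L A)⁻¹ ∈ HV b L := hg.2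
  have h2 : nW b L A * tG Q s g * (nW b L A)⁻¹ = tG Q s (nW b L A * g * (nW b L A)⁻¹) := by
    rw [map_mul, map_mul, map_inv, HF_tG hA s]
  rw [h2]
  exact (tG_HV Q s _).2 h1

/-- Uniqueness of the letter. -/
theorem letter_uniq {A B : List b.support} {u x y : GK b L} (hx : x ∈ Uw b L A) (hy : y ∈ Uw b L A) (h1 : nW b L A * (u * x⁻¹) * (nW b L A)⁻¹ ∈ Uw b L B)
    (h2 : nW b L A * (u * y⁻¹) * (nW b L A)⁻¹ ∈ Uw b L B) : x = y := by
  have h3 := mul_mem (inv_mem h1) h2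
  have e : (nW b L A * (u * x⁻¹) * (nW b L A)⁻¹)⁻¹ * (nW b L A * (u * y⁻¹) * (nW b L A)⁻¹) = nW b L A * (x * y⁻¹) * (nW b L A)⁻¹ := by group
  rw [e] at h3
  exact mul_inv_eq_one.1 (Uw_disj (mul_mem hx (inv_mem hy)) h3.1)

theorem sg_conj {G : Type} [Group G] (H : Subgroup G) {n g : G} (hn : n ∈ H) (hg : g ∈ H) : n * g * n⁻¹ ∈ H := H.mul_mem (H.mul_mem hn hg) (H.inv_mem hn)

theorem sg_conj' {G : Type} [Group G] (H : Subgroup G) {n g : G} (hn : n ∈ H) (hg : g ∈ H) : n⁻¹ * g * n ∈ H := H.mul_mem (H.mul_mem (H.inv_mem hn) hg) hn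

theorem sg_div {G : Type} [Group G] (H : Subgroup G) {n g : G} (hn : n ∈ H) (hg : g ∈ H) : n * g⁻¹ ∈ H := H.mul_mem hn (H.inv_mem hg)

section Data

variable {A B : List b.support}

theorem gd_up (h : RedW b (A ++ B)) (hA : nW b L A ∈ HF Q) {g : GK b L} (hg : g ∈ Uw b L B ⊓ HF Q) : (nW b L A)⁻¹ * g * nW b L A ∈ Uw b L (A ++ B) ⊓ HF Q :=
  ⟨Uw_up_list (A := A) h hg.1, sg_conj' (HF Q) hA hg.2⟩

theorem gd_dec (h : RedW b (A ++ B)) (h' : RedW b A) (hA : nW b L A ∈ HF Q) (hB : nW b L B ∈ HF Q) {u : GK b L} (hu : u ∈ Uw b L (A ++ B) ⊓ HF Q) :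
    ∃ x ∈ Uw b L A ⊓ HF Q, nW b L A * (u * x⁻¹) * (nW b L A)⁻¹ ∈ Uw b L B ⊓ HF Q := by
  obtain ⟨x, hx, h1, -⟩ := Uw_dec_list (A := A) (B := B) h h' hu.1
  have hxF : x ∈ HF Q := by
    rw [mem_HF_iff]
    intro s
    have hN' : tG Q s (nW b L A) = nW b L A := HF_tG hA s
    have hx' : tG Q s x ∈ Uw b L A := tG_Uw' hA s hx
    have h2 : nW b L A * (u * (tG Q s x)⁻¹) * (nW b L A)⁻¹ ∈ Uw b L B := by
      have e : nW b L A * (u * (tG Q s x)⁻¹) * (nW b L A)⁻¹ = tG Q s (nW b L A * (u * x⁻¹) * (nW b L A)⁻¹) := by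
        rw [map_mul, map_mul, map_mul, map_inv, map_inv, hN', HF_tG hu.2 s]
      rw [e]
      exact tG_Uw' hB s h1
    exact letter_uniq hx' hx h2 h1
  exact ⟨x, ⟨hx, hxF⟩, h1, sg_conj (HF Q) hA (sg_div (HF Q) hu.2 hxF)⟩

theorem gd_nrm {S : Finset b.support} (hS : ∀ a ∈ A, a ∈ S) (h : RedW b (A ++ B)) (h' : RedW b A) (hpos : ∀ j ∈ S, b.IsPos (wW b B j)) (hA : nW b L A ∈ HF Q)
    {x g : GK b L} (hx : x ∈ Uw b L A ⊓ HF Q) (hg : g ∈ Uw b L B ⊓ HF Q) : nW b L A * (x * ((nW b L A)⁻¹ * g * nW b L A) * x⁻¹) * (nW b L A)⁻¹ ∈ Uw b L B ⊓ HF Q :=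
  ⟨Uw_nrm (S := S) hS h h' hpos hx.1 hg.1, sg_conj (HF Q) hA (sg_conj (HF Q) hx.2 (sg_conj' (HF Q) hA hg.2))⟩

theorem gd_cO (h : RedW b (A ++ B)) (h' : RedW b A) {x u : GK b L} (hx : x ∈ Uw b L A) (hu : nW b L A * (u * x⁻¹) * (nW b L A)⁻¹ ∈ Uw b L B) (hO : u ∈ G1 b ⊤) :
    x ∈ G1 b (⊤ : Ideal (𝓞 L)) := by
  have h1 : (nW b L A)⁻¹ * (nW b L A * (u * x⁻¹) * (nW b L A)⁻¹) * nW b L A ∈ Uw b L (A ++ B) := Uw_up_list (A := A) h hu
  have e : (nW b L A)⁻¹ * (nW b L A * (u * x⁻¹) * (nW b L A)⁻¹) * nW b L A * x = u := by group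
  have h2 : u ∈ Uw b L (A ++ B) := by
    rw [← e]
    exact mul_mem h1 (Uw_le_list h h' hx)
  obtain ⟨x', hx', h3, h4⟩ := Uw_dec_list (A := A) (B := B) h h' h2
  have h5 : x = x' := letter_uniq hx hx' hu h3
  rw [h5]
  exact h4 hO

end Data

/-- The group `U_w` of the fixed elements. -/
def UF (Q : QS b K L) (l : List b.support) : Subgroup (GK b L) := Uw b L (rw Q l) ⊓ HF Q

theorem UF_cons (Q : QS b K L) (i : b.support) (l : List b.support) : UF Q (i :: l) = Uw b L (ow Q i ++ rw Q l) ⊓ HF Q := by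
  unfold UF
  rw [rw_cons]

/-- Reduced relative words. -/
def RR (Q : QS b K L) (l : List b.support) : Prop := RedW b (rw Q l)

theorem RR_cons {i : b.support} {l : List b.support} : RR Q (i :: l) ↔ RedW b (ow Q i ++ rw Q l) := by
  unfold RR
  rw [rw_cons]

/-- **The group data.** -/
def gDQ (Q : QS b K L) (hN : ∀ i, nq Q i ∈ HF Q) : QDat (GK b L) b.support where
  n := nq Q
  X := Xq Q
  UW := UF Q
  Rd := RR Q
  rd_tail i l h := redW_tail (RR_cons.1 h)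
  uw_nil := by
    unfold UF
    rw [rw_nil, Uw_nil, bot_inf_eq]
  x_mem i l h := by
    rw [UF_cons]
    exact inf_le_inf_right _ (Uw_le_list (RR_cons.1 h) (redW_ow Q i))
  up i l h g hg := by
    rw [UF_cons]
    exact gd_up (RR_cons.1 h) (hN i) hg
  dec i l h u hu := by
    rw [UF_cons] at hu
    exact gd_dec (RR_cons.1 h) (redW_ow Q i) (hN i) (nW_HF hN l) hu
  nrm i l h x hx g hg := gd_nrm (S := orb Q i) (fun a ha => mem_ow.1 ha) (RR_cons.1 h) (redW_ow Q i) (fun j hj => pos_of_redW (RR_cons.1 h) hj) (hN i) hx hg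
  disj i l h x hx hxl := Uw_disj hx.1 hxl.1.1
  GO := G1 b ⊤
  n_O i := nW_G1 _
  c_O i l h x hx u hu hO := gd_cO (RR_cons.1 h) (redW_ow Q i) hx.1 hu.1 hO
  div i x hx := HU_div hx.1.1

theorem gDQ_nw (hN : ∀ i, nq Q i ∈ HF Q) (l : List b.support) : (gDQ Q hN).nw l = nW b L (rw Q l) := by
  induction l with
  | nil => rfl
  | cons i l ih =>
    rw [QDat.nw_cons, ih, rw_cons, nW_append]
    rfl

end

end Pool.Agent.Lib.H29Q
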