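import Pool.Agent.Lib.H29Q.GD
import Pool.Agent.Lib.L8.QF.C2
import Pool.Agent.Lib.L8.FC.D3
import Pool.Agent.Lib.L8.FI.G1

/-!
# GE: exponents along the words of orbits, orbits
-/

namespace Pool.Agent.Lib.H29Q

open MeasureTheory Matrix NumberField IsDedekindDomain Pool.Agent.Lib.H89N Pool.Agent.Lib.H33W Pool.Agent.Lib.H67G Pool.Agent.Lib.L1S Pool.Agent.Lib.L8.QF Pool.Agent.Lib.L8.FL
open scoped ENNReal

noncomputable section

set_option linter.unusedSectionVars false
set_option linter.unusedVariables false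

variable {ι M N : Type} [Fintype ι] [DecidableEq ι] [AddCommGroup M] [Module ℚ M] [AddCommGroup N] [Module ℚ N]
  {P : RootPairing ι ℚ M N} [P.IsCrystallographic] [P.IsReduced] [P.IsIrreducible] [P.IsRootSystem]
  {b : P.Base} {K L : Type} [Field K] [NumberField K] [Field L] [NumberField L] [Algebra K L] {Q : QS b K L}

/-! ## 1. Exponents -/

theorem eW_append (A B : List b.support) (e : b.support → ℝ) : eW b e (A ++ B) = eW b (eW b e B) A := by
  induction A with
  | nil => rfl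
  | cons i A ih =>
    show se b i (eW b e (A ++ B)) = se b i (eW b (eW b e B) A)
    rw [ih]

theorem posW_append {κ : ℝ} {e : b.support → ℝ} {A B : List b.support} : PosW b κ e (A ++ B) ↔ PosW b κ (eW b e B) A ∧ PosW b κ e B := by
  induction A with
  | nil => exact ⟨fun h => ⟨trivial, h⟩, fun h => h.2⟩
  | cons i A ih =>
    have h : PosW b κ e ((i :: A) ++ B) ↔ κ ≤ mu b (eW b e (A ++ B)) i ∧ PosW b κ e (A ++ B) := Iff.rfl
    have h' : PosW b κ (eW b e B) (i :: A) ↔ κ ≤ mu b (eW b (eW b e B) A) i ∧ PosW b κ (eW b e B) A := Iff.rfl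
    rw [h, h', ih, eW_append, and_assoc]

theorem ge_mu_sp {σ : Equiv.Perm ι} (hσ : DA b σ) (e : b.support → ℝ) (i : b.support) : mu b e (hσ.sp i) = mu b (fun k => e (hσ.sp k)) i := by
  unfold L8.FL.mu xe
  rw [← Equiv.sum_comp hσ.sp]
  congr 1
  refine Finset.sum_congr rfl fun k _ => ?_
  have h1 : b.cartanMatrix (hσ.sp k) (hσ.sp i) = b.cartanMatrix k i := hσ.pair k i
  rw [h1]

theorem ge_eW_sp {σ : Equiv.Perm ι} (hσ : DA b σ) (A : List b.support) (e : b.support → ℝ) (k : b.support) : eW b e (A.map hσ.sp) (hσ.sp k) = eW b (fun k => e (hσ.sp k)) A k := by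
  induction A generalizing k with
  | nil => rfl
  | cons i A ih =>
    show se b (hσ.sp i) (eW b e (A.map hσ.sp)) (hσ.sp k) = se b i (eW b (fun k => e (hσ.sp k)) A) k
    have h1 : (fun k => eW b e (A.map hσ.sp) (hσ.sp k)) = eW b (fun k => e (hσ.sp k)) A := funext ih
    unfold se
    rw [ge_mu_sp, h1, ih]
    exact if_congr (hσ.sp.injective.eq_iff) rfl rfl

theorem eW_eq_of {A B : List b.support} (h : wW b A = wW b B) (e : b.support → ℝ) : eW b e A = eW b e B := by
  refine L8.FC.xe_inj b fun i => ?_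
  have h1 := L8.FC.mu_eW b e A i
  have h2 := L8.FC.mu_eW b e B i
  rw [h, ← h2] at h1
  unfold L8.FL.mu at h1
  linarith

theorem invE_eW {A : List b.support} (hA : ∀ s, Q.act s * wW b A * (Q.act s)⁻¹ = wW b A) {e : b.support → ℝ} (he : InvE Q e) : InvE Q (eW b e A) := by
  intro s i
  have h1 : wW b (A.map (Q.da s).sp) = wW b A := by rw [da_wW, hA s]
  have h2 : (fun k => e ((Q.da s).sp k)) = e := funext fun k => he s k
  rw [← eW_eq_of h1 e, ge_eW_sp, h2, eW_eq_of h1 e]

theorem wW_comm_rw (l : List b.support) (s : L ≃ₐ[K] L) : Q.act s * wW b (rw Q l) * (Q.act s)⁻¹ = wW b (rw Q l) := by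
  induction l with
  | nil =>
    rw [rw_nil]
    show Q.act s * 1 * (Q.act s)⁻¹ = 1
    rw [mul_one, mul_inv_cancel]
  | cons i l ih =>
    rw [rw_cons, wW_append]
    have e : Q.act s * (wW b (rw Q l) * wW b (ow Q i)) * (Q.act s)⁻¹ = (Q.act s * wW b (rw Q l) * (Q.act s)⁻¹) * (Q.act s * wW b (ow Q i) * (Q.act s)⁻¹) := by group
    rw [e, ih, c2_comm]

/-! ## 2. Orbits -/

theorem mem_orb {i j : b.support} : j ∈ orb Q i ↔ ∃ s, (Q.da s).sp i = j := by
  unfold L8.QF.orb
  rw [Finset.mem_filter]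
  exact ⟨fun h => h.2, fun h => ⟨Finset.mem_univ _, h⟩⟩

theorem orb_eq {i j : b.support} (h : j ∈ orb Q i) : orb Q j = orb Q i := by
  obtain ⟨s, rfl⟩ := mem_orb.1 h
  ext k
  rw [mem_orb, mem_orb]
  constructor
  · rintro ⟨t, rfl⟩
    exact ⟨t * s, sp_mul Q t s i⟩
  · rintro ⟨t, rfl⟩
    refine ⟨t * s⁻¹, ?_⟩
    rw [sp_mul, sp_cancel]

theorem orb_disj (i k : b.support) : orb Q i = orb Q k ∨ Disjoint (orb Q i) (orb Q k) := by
  by_cases h : Disjoint (orb Q i) (orb Q k)
  · exact Or.inr h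
  · rw [Finset.not_disjoint_iff] at h
    obtain ⟨j, h1, h2⟩ := h
    exact Or.inl (by rw [← orb_eq h1, ← orb_eq h2])

theorem orb_sub {A : Finset b.support} (hA : InvJ Q A) (i : b.support) : orb Q i ⊆ A ∨ Disjoint (orb Q i) A := by
  by_cases h : i ∈ A
  · left
    intro j hj
    obtain ⟨s, rfl⟩ := mem_orb.1 hj
    exact (hA s i).2 h
  · right
    rw [Finset.disjoint_left]
    intro j hj hjA
    obtain ⟨s, rfl⟩ := mem_orb.1 hj
    exact h ((hA s i).1 hjA)

theorem mem_rw {l : List b.support} {j : b.support} : j ∈ rw Q l ↔ j ∈ occ (orb Q) l := by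
  rw [mem_occ]
  unfold rw
  rw [List.mem_flatMap]
  exact exists_congr fun i => and_congr_right fun _ => mem_ow

theorem inter_occ (A : Finset b.support) (l : List b.support) : A ∩ occ (orb Q) l = A.filter (· ∈ rw Q l) := by
  ext j
  rw [Finset.mem_inter, Finset.mem_filter, mem_rw]

/-! ## 3. The words -/

theorem ewA_eq (e : b.support → ℝ) (l : List b.support) : ewA (fun i e => eW b e (ow Q i)) e l = eW b e (rw Q l) := by
  induction l with
  | nil => rfl
  | cons i l ih =>
    rw [rw_cons, eW_append, ← ih]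
    rfl

/-- Admissible letters. -/
def OkQ (Q : QS b K L) (κ : ℝ) (i : b.support) (e : b.support → ℝ) : Prop := InvE Q e ∧ PosW b κ e (ow Q i)

theorem okW {κ : ℝ} {e : b.support → ℝ} (he : InvE Q e) {l : List b.support} (hP : PosW b κ e (rw Q l)) : OkW (OkQ Q κ) (fun i e => eW b e (ow Q i)) e l := by
  induction l with
  | nil => trivial
  | cons i l ih =>
    rw [rw_cons, posW_append] at hP
    refine ⟨?_, ih hP.2⟩
    rw [ewA_eq]
    exact ⟨invE_eW (wW_comm_rw l) he, hP.1⟩

/-- The constant. -/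
theorem cst_le {Zf : b.support → (b.support → ℝ) → ℝ} {t : ℝ} (ht : 0 ≤ t) (sx : b.support → (b.support → ℝ) → b.support → ℝ) (e : b.support → ℝ) (l : List b.support) :
    cst (fun i e => Zf i e * t) sx e l = cst Zf sx e l * t ^ l.length := by
  induction l with
  | nil =>
    show (1 : ℝ) = 1 * t ^ 0
    rw [pow_zero, mul_one]
  | cons i l ih =>
    show (Zf i (ewA sx e l) * t) * cst (fun i e => Zf i e * t) sx e l = Zf i (ewA sx e l) * cst Zf sx e l * t ^ (l.length + 1)
    rw [ih, pow_succ]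
    ring

/-! ## 4. The groups -/

theorem UF_eq (Q : QS b K L) (l : List b.support) : UF Q l = UwQ Q l := by
  refine le_antisymm ?_ (inf_le_inf_left _ (HQ_le_HF Q))
  intro g hg
  exact ⟨hg.1, mem_HQ_U Q hg.1.1 fun s => HF_tG hg.2 s⟩

theorem UF_le (Q : QS b K L) (l : List b.support) : UF Q l ≤ HU b L := fun g hg => hg.1.1

/-- The level condition for the letters outside of the orbit. -/
theorem Chi_nW {𝔪 : Ideal (𝓞 L)} {j : b.support} {A : List b.support} (hj : j ∉ A) (g : GK b L) : Chi b 𝔪 j (nW b L A * g) ↔ Chi b 𝔪 j g := by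
  induction A generalizing g with
  | nil =>
    show Chi b 𝔪 j (1 * g) ↔ _
    rw [one_mul]
  | cons i A ih =>
    rw [List.mem_cons, not_or] at hj
    show Chi b 𝔪 j (nW b L A * b1m b L i 1 * g) ↔ _
    rw [mul_assoc, ih hj.2]
    have h := L8.FI.Chi_ne b (𝔫 := 𝔪) hj.1 (0 : L) g
    have h0 : b1x b L (i : ι) (0 : L) = 1 := by
      have h1 := b1x_add b L (i : ι) (0 : L) 0
      rw [add_zero] at h1
      exact (mul_eq_left.1 h1.symm)
    rwa [h0, mul_one] at h

end

end Pool.Agent.Lib.H29Q
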