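import Pool.Agent.Lib.H29Q.GE
import Pool.Agent.Lib.H29F.FH2

/-!
# GF: the finite part for the quasi-split groups, from the rank one estimates
-/

namespace Pool.Agent.Lib.H29Q

open MeasureTheory Matrix NumberField IsDedekindDomain Pool.Agent.Lib.H89N Pool.Agent.Lib.H33W Pool.Agent.Lib.H67G Pool.Agent.Lib.L1S Pool.Agent.Lib.L8.QF Pool.Agent.Lib.L8.FL
open scoped ENNReal

noncomputable section

set_option linter.unusedSectionVars false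
set_option linter.unusedVariables false

variable {ι M N : Type} [Fintype ι] [DecidableEq ι] [AddCommGroup M] [Module ℚ M] [AddCommGroup N] [Module ℚ N]
  {P : RootPairing ι ℚ M N} [P.IsCrystallographic] [P.IsReduced] [P.IsIrreducible] [P.IsRootSystem]
  {b : P.Base} {K L : Type} [Field K] [NumberField K] [Field L] [NumberField L] [Algebra K L] {Q : QS b K L}

/-! ## 1. Sums over cosets -/

/-- A bound for the sums over inequivalent sets gives the bound for the sum over the cosets of `Λ`. -/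
theorem rs_finU {𝔫 : Ideal (𝓞 L)} (h𝔫 : 𝔫 ≠ ⊥) (U : Subgroup (GK b L)) (z : GK b L) {Λ : Subgroup (GK b L)} (hΛ : Λ ≤ U) (hz : ∀ l ∈ Λ, z⁻¹ * l * z ∈ G1 b 𝔫)
    (h1 : Λ.relIndex (U ⊓ G1 b ⊤) ≠ 0) (h2 : (U ⊓ G1 b ⊤).relIndex Λ ≠ 0) (p : GK b L → Prop) [DecidablePred p] (f : GK b L → ℝ)
    (hp : ∀ u, ∀ δ ∈ H29F.cz (G1 b 𝔫) z, p (u * δ) ↔ p u) (hf0 : ∀ u, 0 ≤ f u) (hf : ∀ u, ∀ δ ∈ H29F.cz (G1 b 𝔫) z, f (u * δ) = f u) {B : ℝ} (hB0 : 0 ≤ B)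
    (hB : ∀ T : Finset (GK b L), (∀ u ∈ T, u ∈ U) → (∀ u ∈ T, ∀ u' ∈ T, u ≠ u' → u⁻¹ * u' ∉ H29F.cz (G1 b 𝔫) z) → (∀ u ∈ T, p u) →
      ∑ u ∈ T, f u ≤ B * H29F.gi (U ⊓ G1 b ⊤) (U ⊓ H29F.cz (G1 b 𝔫) z)) :
    rs U Λ (fun u => if p u then ENNReal.ofReal (f u) else 0) ≤ ENNReal.ofReal B * L8.FL.gi (U ⊓ G1 b ⊤) Λ := by
  classical
  set Δ := U ⊓ H29F.cz (G1 b 𝔫) z with hΔ
  have hΛΔ : Λ ≤ Δ := fun l hl => ⟨hΛ hl, H29F.mem_cz.2 (hz l hl)⟩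
  have hc : Subgroup.Commensurable (U ⊓ G1 b ⊤) Δ := H29F.inf_comm _ ⟨(H29F.Gk.hD (b := b) h𝔫).comm2 z, (H29F.Gk.hD (b := b) h𝔫).comm1 z⟩
  have hc2 : Subgroup.Commensurable Λ Δ := Subgroup.Commensurable.trans ⟨h1, h2⟩ hc
  have key := H29F.rs_le (inf_le_left : Δ ≤ U) hc2.1 (fun u => if p u then ENNReal.ofReal (f u) else 0) (fun u δ hδ => by
    show (if p (u * δ) then ENNReal.ofReal (f (u * δ)) else 0) = if p u then ENNReal.ofReal (f u) else 0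
    rw [hf u δ hδ.2]
    exact if_congr (hp u δ hδ.2) rfl rfl) (ENNReal.ofReal (B * H29F.gi (U ⊓ G1 b ⊤) Δ)) (fun T hT hT2 => by
    rw [← Finset.sum_filter, ← ENNReal.ofReal_sum_of_nonneg fun u _ => hf0 u]
    refine ENNReal.ofReal_le_ofReal (hB (T.filter p) (fun u hu => hT u (Finset.mem_filter.1 hu).1) (fun u hu u' hu' hne h => ?_) fun u hu => (Finset.mem_filter.1 hu).2)
    exact hT2 u (Finset.mem_filter.1 hu).1 u' (Finset.mem_filter.1 hu').1 hne ⟨U.mul_mem (inv_mem (hT u (Finset.mem_filter.1 hu).1)) (hT u' (Finset.mem_filter.1 hu').1), h⟩)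
  refine key.trans (le_of_eq ?_)
  rw [ENNReal.ofReal_mul hB0, ← H29F.gi_enn hΛΔ hc.1 hc.2 hc2.2 hc2.1 h2]
  ring

/-! ## 2. The finite part -/

theorem gf_right {𝔪 : Ideal (𝓞 L)} (h : 𝔪 ≠ ⊥) (e : b.support → ℝ) (g : GK b L) {γ : GK b L} (hγ : γ ∈ G1 b 𝔪) : fe b e (g * γ) = fe b e g := by
  rw [H29F.fe_eq h, H29F.fe_eq h]
  exact H29F.fe_right _ _ _ hγ

/-- **The finite part (C4Q)** from the rank one estimates for the letters and the invariance of the representatives. -/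
theorem fin_sum_of (Q : QS b K L) (hN : ∀ i, nq Q i ∈ HF Q) {κ : ℝ}
    (hR : ∀ i e, InvE Q e → PosW b κ e (ow Q i) → ∀ δ : ℝ, 0 < δ → ∃ Z : ℝ, 1 ≤ Z ∧ RankQ Q i e δ Z)
    {e : b.support → ℝ} (he : InvE Q e) {l : List b.support} (hl : RedW b (rw Q l)) (hP : PosW b κ e (rw Q l)) {δ : ℝ} (hδ : 0 < δ) :
    ∃ Z : ℝ, 1 ≤ Z ∧ ∀ 𝔫 : Ideal (𝓞 K), 𝔫 ≠ ⊥ → ∀ A : Finset b.support, InvJ Q A → ∀ z : GK b L, z ∈ HQ Q →
    ∀ Λ : Subgroup (GK b L), Λ ≤ UwQ Q l → (∀ x ∈ Λ, z⁻¹ * x * z ∈ G1 b (up L 𝔫)) →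
    Λ.relIndex (UwQ Q l ⊓ G1 b ⊤) ≠ 0 → (UwQ Q l ⊓ G1 b ⊤).relIndex Λ ≠ 0 →
    rs (UwQ Q l) Λ (fun u => open scoped Classical in if ∀ j ∈ A, Chi b (up L 𝔫) j (nW b L (rw Q l) * u * z) then ENNReal.ofReal (fe b e (nW b L (rw Q l) * u * z) ^ df K L) else 0) ≤
      ENNReal.ofReal (Z * (Ideal.absNorm 𝔫 : ℝ) ^ δ * fe b (eW b e (rw Q l)) z ^ df K L / (Ideal.absNorm 𝔫 : ℝ) ^ (A.filter (· ∈ rw Q l)).card) * L8.FL.gi (UwQ Q l ⊓ G1 b ⊤) Λ := by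
  classical
  set δ' : ℝ := δ / (l.length + 1) with hδ'
  have hl1 : (0 : ℝ) < (l.length : ℝ) + 1 := by positivity
  have hδ'0 : 0 < δ' := div_pos hδ hl1
  have hZ : ∀ (i : b.support) (e : b.support → ℝ), ∃ Z : ℝ, 1 ≤ Z ∧ (OkQ Q κ i e → RankQ Q i e δ' Z) := by
    intro i e
    by_cases h : OkQ Q κ i e
    · obtain ⟨Z, h1, h2⟩ := hR i e h.1 h.2 δ' hδ'0
      exact ⟨Z, h1, fun _ => h2⟩
    · exact ⟨1, le_rfl, fun h' => absurd h' h⟩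
  choose Zf hZf hZR using hZ
  refine ⟨cst Zf (fun i e => eW b e (ow Q i)) e l, cst_one hZf _ _ _, fun 𝔫 h𝔫 A hA z hz Λ hΛ hzΛ h1 h2 => ?_⟩
  have hup : up L 𝔫 ≠ ⊥ := qc_up_bot h𝔫
  have hNn : (1 : ℝ) ≤ (Ideal.absNorm 𝔫 : ℝ) := by
    have h3 : Ideal.absNorm 𝔫 ≠ 0 := fun h => h𝔫 (Ideal.absNorm_eq_zero_iff.1 h)
    exact_mod_cast Nat.one_le_iff_ne_zero.2 h3
  have hN0 : (0 : ℝ) < (Ideal.absNorm 𝔫 : ℝ) := by linarith
  set Nn : ℝ := (Ideal.absNorm 𝔫 : ℝ) with hNndef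
  have ht1 : 1 ≤ Nn ^ δ' := Real.one_le_rpow hNn hδ'0.le
  have hm : ∀ u δ : GK b L, nW b L (rw Q l) * (u * δ) * z = nW b L (rw Q l) * u * z * (z⁻¹ * δ * z) := fun u δ => by group
  have hC0 : 0 < cst Zf (fun i e => eW b e (ow Q i)) e l := lt_of_lt_of_le one_pos (cst_one hZf _ _ _)
  refine (le_of_eq ?_).trans (rs_finU hup (UwQ Q l) z hΛ hzΛ h1 h2 (fun u => ∀ j ∈ A, Chi b (up L 𝔫) j (nW b L (rw Q l) * u * z)) (fun u => fe b e (nW b L (rw Q l) * u * z) ^ df K L)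
    (fun u δ hδ => ?_) (fun u => Real.rpow_nonneg (H29F.fl_fe_pos e _).le _) (fun u δ hδ => ?_)
    (B := cst Zf (fun i e => eW b e (ow Q i)) e l * Nn ^ δ * fe b (eW b e (rw Q l)) z ^ df K L / Nn ^ (A.filter (· ∈ rw Q l)).card) ?_ (fun T hT hT2 hT3 => ?_))
  · congr 1
  · refine forall_congr' fun j => forall_congr' fun _ => ?_
    rw [hm, H29F.Chi_mul hup j _ (H29F.mem_cz.1 hδ)]
  · show fe b e (nW b L (rw Q l) * (u * δ) * z) ^ df K L = _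
    rw [hm, gf_right hup e _ (H29F.mem_cz.1 hδ)]
  · have h4 := Real.rpow_nonneg (H29F.fl_fe_pos (b := b) (eW b e (rw Q l)) z).le (df K L)
    have h5 := Real.rpow_nonneg hN0.le δ
    exact div_nonneg (mul_nonneg (mul_nonneg hC0.le h5) h4) (pow_nonneg hN0.le _)
  · have key := c4Q (D := gDQ Q hN) (A := HF Q) (U := HU b L) (Γ := G1 b (up L 𝔫)) (F := fun e g => fe b e g ^ df K L) (χ := fun j g => Chi b (up L 𝔫) j g) (o := orb Q) (Nn := Nn) hN0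
      (sx := fun i e => eW b e (ow Q i)) (Ok := OkQ Q κ) (Zf := fun i e => Zf i e * Nn ^ δ') (fun i e => one_le_mul_of_one_le_of_one_le (hZf i e) ht1)
      (fun i e' hOk z' hz' 𝔞 h𝔞 h3 h4 h5 R hR1 hR2 lev hlev => by
        have h6 := hZR i e' hOk 𝔫 h𝔫 z' hz' 𝔞 h𝔞 h3 h4 h5 R hR1 hR2 lev hlev
        exact h6)
      (fun z' => (H29F.Gk.hD (b := b) hup).comm1 z') (fun z' => (H29F.Gk.hD (b := b) hup).comm2 z') (fun e' g => Real.rpow_pos_of_pos (H29F.fl_fe_pos e' g) _)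
      (fun e' g γ hγ => by
        show fe b e' (g * γ) ^ df K L = fe b e' g ^ df K L
        rw [gf_right hup e' _ hγ])
      (fun j g γ hγ => H29F.Chi_mul hup j g hγ) (fun j u hu g => L8.FI.Chi_U b hu g) (fun i j hj g => Chi_nW (fun h => hj (mem_ow.1 h)) g)
      (fun l => UF_le Q l) hN (fun i => inf_le_right) orb_disj l hl e (okW he hP) (S := A) (orb_sub hA) z (HQ_le_HF Q hz) T (fun u hu => by
        show u ∈ UF Q l
        rw [UF_eq]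
        exact hT u hu) hT2 (fun u hu j hj => by
        rw [gDQ_nw]
        exact hT3 u hu j hj)
    have e1 : (gDQ Q hN).UW l = UwQ Q l := UF_eq Q l
    have e2 : (gDQ Q hN).GO = G1 b ⊤ := rfl
    rw [ewA_eq, gDQ_nw, inter_occ, e1, e2, cst_le (by linarith)] at key
    refine key.trans ?_
    have hg : 0 ≤ H29F.gi (UwQ Q l ⊓ G1 b ⊤) (UwQ Q l ⊓ H29F.cz (G1 b (up L 𝔫)) z) := div_nonneg (Nat.cast_nonneg _) (Nat.cast_nonneg _)
    have h4 := Real.rpow_nonneg (H29F.fl_fe_pos (b := b) (eW b e (rw Q l)) z).le (df K L)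
    have h5 : (Nn ^ δ') ^ l.length ≤ Nn ^ δ := by
      rw [← Real.rpow_natCast, ← Real.rpow_mul hN0.le]
      refine Real.rpow_le_rpow_of_exponent_le hNn ?_
      rw [hδ', div_mul_eq_mul_div, div_le_iff₀ hl1]
      nlinarith
    have h6 : (0 : ℝ) < Nn ^ (A.filter (· ∈ rw Q l)).card := pow_pos hN0 _
    rw [div_mul_eq_mul_div, div_le_div_iff_of_pos_right h6]
    refine mul_le_mul_of_nonneg_right (mul_le_mul_of_nonneg_right (mul_le_mul_of_nonneg_left h5 hC0.le) h4) hg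

end

end Pool.Agent.Lib.H29Q
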