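import Pool.Agent.Lib.H29Q.GF
import Pool.Agent.Lib.L8.QF.W6Q

/-!
# GH: the inputs `FinQ`, `FinG` of the count from the rank one estimates

`RankQB Q i e δ g Z` is the rank one estimate for one letter with both levels: the level condition at `z` and at all `n r z`, with the gain `N(𝔫) ^ (- g)`.
-/

namespace Pool.Agent.Lib.H29Q

open MeasureTheory Matrix NumberField IsDedekindDomain Pool.Agent.Lib.H89N Pool.Agent.Lib.H33W Pool.Agent.Lib.H67G Pool.Agent.Lib.L1S Pool.Agent.Lib.L8.QF Pool.Agent.Lib.L8.FL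
open scoped ENNReal

noncomputable section

set_option linter.unusedSectionVars false
set_option linter.unusedVariables false

variable {ι M N : Type} [Fintype ι] [DecidableEq ι] [AddCommGroup M] [Module ℚ M] [AddCommGroup N] [Module ℚ N]
  {P : RootPairing ι ℚ M N} [P.IsCrystallographic] [P.IsReduced] [P.IsIrreducible] [P.IsRootSystem]
  {b : P.Base} {K L : Type} [Field K] [NumberField K] [Field L] [NumberField L] [Algebra K L] {Q : QS b K L}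

/-- `FinQ` from the rank one estimates. -/
theorem finQ_of (Q : QS b K L) (hN : ∀ i, nq Q i ∈ HF Q)
    (hR : ∀ κ : ℝ, 1 < κ → ∀ i e, InvE Q e → PosW b κ e (ow Q i) → ∀ δ : ℝ, 0 < δ → ∃ Z : ℝ, 1 ≤ Z ∧ RankQ Q i e δ Z) : FinQ Q :=
  fun δ hδ κ hκ e he l hl hP => fin_sum_of Q hN (hR κ hκ) he hl hP hδ

/-- **The rank one estimate with both levels**, with the gain `g`. -/
def RankQB (Q : QS b K L) (i : b.support) (e : b.support → ℝ) (δ g Z : ℝ) : Prop :=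
  ∀ 𝔫 : Ideal (𝓞 K), 𝔫 ≠ ⊥ → ∀ z : GK b L, z ∈ HF Q → (∀ j ∈ orb Q i, Chi b (up L 𝔫) j z) → ∀ 𝔞 : Subgroup (GK b L), 𝔞 ≤ Xq Q i →
    𝔞.relIndex (Xq Q i ⊓ G1 b ⊤) ≠ 0 → (Xq Q i ⊓ G1 b ⊤).relIndex 𝔞 ≠ 0 →
    (∀ s ∈ 𝔞, ∀ r ∈ Xq Q i, ∃ u ∈ HU b L, ∃ γ ∈ G1 b (up L 𝔫), nq Q i * (r * s) * z = u * (nq Q i * r * z) * γ) →
    ∀ R : Finset (GK b L), (∀ r ∈ R, r ∈ Xq Q i) → (∀ r ∈ R, ∀ r' ∈ R, r ≠ r' → r⁻¹ * r' ∉ 𝔞) →
    (∀ r ∈ R, ∀ j ∈ orb Q i, Chi b (up L 𝔫) j (nq Q i * r * z)) →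
    ∑ r ∈ R, fe b e (nq Q i * r * z) ^ df K L ≤ Z * (Ideal.absNorm 𝔫 : ℝ) ^ (δ - g) * fe b (eW b e (ow Q i)) z ^ df K L * H29F.gi (Xq Q i ⊓ G1 b ⊤) 𝔞

theorem one_PJ (j : b.support) : (1 : GK b L) ∈ PJ b L j := by
  intro r c h
  have hne : r ≠ c := by
    rintro rfl
    exact lt_irrefl _ h
  exact Matrix.one_apply_ne hne

theorem rw_one (i : b.support) : rw Q [i] = ow Q i := by
  rw [rw_cons, rw_nil, List.append_nil]

/-- `FinG` for a word with one letter. -/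
theorem finG_one (Q : QS b K L) {i : b.support} {e : b.support → ℝ} {g : ℝ} (hR : ∀ δ : ℝ, 0 < δ → ∃ Z : ℝ, 0 < Z ∧ RankQB Q i e δ g Z) : FinG Q [i] e g := by
  classical
  intro δ hδ
  obtain ⟨Z, hZ, h⟩ := hR δ hδ
  refine ⟨Z, hZ, fun 𝔫 h𝔫 z hz hzK Λ hΛ hzΛ h1 h2 => ?_⟩
  have hup : up L 𝔫 ≠ ⊥ := qc_up_bot h𝔫
  have hN0 : (0 : ℝ) < (Ideal.absNorm 𝔫 : ℝ) := by
    rw [Nat.cast_pos]
    exact Nat.pos_of_ne_zero fun h => h𝔫 (Ideal.absNorm_eq_zero_iff.1 h)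
  have hX : UwQ Q [i] = Xq Q i := by
    rw [← UF_eq]
    unfold UF Xq
    rw [rw_one]
  rw [hX] at hΛ h1 h2 ⊢
  rw [rw_one]
  have hm : ∀ u δ : GK b L, nW b L (ow Q i) * (u * δ) * z = nW b L (ow Q i) * u * z * (z⁻¹ * δ * z) := fun u δ => by group
  have h4 := Real.rpow_nonneg (H29F.fl_fe_pos (b := b) (eW b e (ow Q i)) z).le (df K L)
  have h5 := Real.rpow_nonneg hN0.le (δ - g)
  refine (le_of_eq ?_).trans (rs_finU hup (Xq Q i) z hΛ hzΛ h1 h2 (fun u => ∀ j, Chi b (up L 𝔫) j (nW b L (ow Q i) * u * z)) (fun u => fe b e (nW b L (ow Q i) * u * z) ^ df K L)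
    (fun u δ hδ => ?_) (fun u => Real.rpow_nonneg (H29F.fl_fe_pos e _).le _) (fun u δ hδ => ?_)
    (B := Z * (Ideal.absNorm 𝔫 : ℝ) ^ (δ - g) * fe b (eW b e (ow Q i)) z ^ df K L) (mul_nonneg (mul_nonneg hZ.le h5) h4) (fun T hT hT2 hT3 => ?_))
  · congr 1
  · refine forall_congr' fun j => ?_
    rw [hm, H29F.Chi_mul hup j _ (H29F.mem_cz.1 hδ)]
  · show fe b e (nW b L (ow Q i) * (u * δ) * z) ^ df K L = _
    rw [hm, gf_right hup e _ (H29F.mem_cz.1 hδ)]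
  · have hc : Subgroup.Commensurable (Xq Q i ⊓ G1 b ⊤) (Xq Q i ⊓ H29F.cz (G1 b (up L 𝔫)) z) :=
      H29F.inf_comm _ ⟨(H29F.Gk.hD (b := b) hup).comm2 z, (H29F.Gk.hD (b := b) hup).comm1 z⟩
    have hzC : ∀ j, Chi b (up L 𝔫) j z := fun j => L8.FI.Chi_mk b fun w hw => ⟨1, one_PJ j, z, hzK w hw, (one_mul z).symm⟩
    exact h 𝔫 h𝔫 z (HQ_le_HF Q hz) (fun j _ => hzC j) (Xq Q i ⊓ H29F.cz (G1 b (up L 𝔫)) z) inf_le_left hc.2 hc.1
      (fun s hs r hr => ⟨1, one_mem _, z⁻¹ * s * z, H29F.mem_cz.1 hs.2, by rw [one_mul]; exact hm r s⟩) T hT (fun r hr r' hr' hne h6 => hT2 r hr r' hr' hne h6.2) (fun r hr j _ => hT3 r hr j)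

end

end Pool.Agent.Lib.H29Q
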